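import Pool.Agent.H98.P4.Dig

/-!
# The target is not full, given the picture (P4, NFStmt)
-/

set_option autoImplicit false

namespace Pool.P4N

open Finset Real
open Pool.Agent.H49.Ent Pool.Agent.H32.Dense Pool.STK Pool.STAT Pool.MIC Pool.P4
open Pool.BFL (Pb)

variable {D : NDat2} {n K K' J a₀ w₀ z M w i j r r' r'' y X : ℕ} {lam gam : ℕ → ℝ}
  {κ C₁ C : ℝ} {q : D.Ω → ℝ} {E : D.Ω → Prop} {P : D.Γ × D.Γ → ℕ → PN}
  {S : D.Ω → ℕ → ℕ → ℝ} {c k : ℕ} {ys : Fin k → ℕ} {gs : Fin c → ℕ}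

theorem Ry_one (hC : 0 ≤ C) (z : ℕ) : 1 ≤ Ry z C := by
  unfold Ry
  exact Real.one_le_exp (by positivity)

theorem Rg_eq (z : ℕ) (C : ℝ) : Rg z C = 2 * (Ry z C * Ry z C) := by
  unfold Rg Ry
  rw [← Real.exp_add]
  congr 2
  ring

/-- **The coordinates before the target are determined by the picture.** -/
theorem ze_near (H : Hyp D n K K' J a₀ w₀ z M w i j r r' r'' y X lam gam κ C₁ C q E P S ys gs)
    {ω ω' : D.Ω} (h1 : 0 < q ω) (h2 : 0 < q ω') (hE : E ω) (hE' : E ω') (hT : D.T ω = D.T ω')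
    (hy : yv D J w z i j r X C P ys ω = yv D J w z i j r X C P ys ω')
    (hbe : bev D J w z i j r X C P gs ω = bev D J w z i j r X C P gs ω')
    (u₀ : ℕ) (hnu : ∀ u, gs u ≠ u₀ →
      nuv D J w z i j r X C P gs ω u = nuv D J w z i j r X C P gs ω' u)
    {l : ℕ} (hl1 : 1 ≤ l) (hln : l ≤ n) (hl0 : l ≠ u₀) :
    |ze D i j r P ω l - ze D i j r P ω' l| ≤ 8 * Rg z C * ((2 : ℝ) ^ X)⁻¹ := by
  have hC0 : 0 ≤ C := by linarith [H.Cg]
  have hRy := Ry_one hC0 z
  have hRg := Rg_eq z C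
  have hp : (0 : ℝ) < 2 ^ X := by positivity
  have hi : (0 : ℝ) < ((2 : ℝ) ^ X)⁻¹ := by positivity
  have hRg1 : 2 * Ry z C ≤ Rg z C := by
    rw [hRg]
    nlinarith only [hRy]
  have hτ : exp (C * z) / 2 ^ (y * z) ≤ ((2 : ℝ) ^ X)⁻¹ := by
    rw [div_le_iff₀ (by positivity), inv_mul_eq_div, le_div_iff₀ hp]
    exact H.yX
  have hg := H.geo
  have hw := H.w1
  have hw' := H.w2
  by_cases hs : sl gam n l
  · obtain ⟨a, ha⟩ := H.ys_on l hs
    have e1 := hg.slow ω h1 hE l hs w hw hw'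
    have e2 := hg.slow ω' h2 hE' l hs w hw hw'
    have b1 := (hg.bt ω h1 hE l hl1 hln w hw hw').1
    have b2 := (hg.bt ω' h2 hE' l hl1 hln w hw hw').1
    change |z0 D J w i j r P ω l| ≤ Ry z C at b1
    change |z0 D J w i j r P ω' l| ≤ Ry z C at b2
    have hy' := congrFun hy a
    unfold yv at hy'
    rw [ha] at hy'
    have hR2 : 0 < 2 * Ry z C := by linarith
    obtain ⟨c1, c2⟩ := abs_le.1 b1
    obtain ⟨d1, d2⟩ := abs_le.1 b2
    have e3 := dgp_eq (div_nonneg (by linarith) hR2.le) ((div_le_one hR2).2 (by linarith))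
      (div_nonneg (by linarith) hR2.le) ((div_le_one hR2).2 (by linarith)) hy'
    rw [← sub_div, abs_div, abs_of_pos hR2, div_le_iff₀ hR2] at e3
    have e4 : z0 D J w i j r P ω l + Ry z C - (z0 D J w i j r P ω' l + Ry z C) =
      z0 D J w i j r P ω l - z0 D J w i j r P ω' l := by ring
    rw [e4] at e3
    have e5 : |ze D i j r P ω l - ze D i j r P ω' l| ≤
        |ze D i j r P ω l - z0 D J w i j r P ω l| +
        |z0 D J w i j r P ω l - z0 D J w i j r P ω' l| +
        |ze D i j r P ω' l - z0 D J w i j r P ω' l| := by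
      rw [abs_sub_comm (ze D i j r P ω' l) (z0 D J w i j r P ω' l)]
      calc |ze D i j r P ω l - ze D i j r P ω' l| =
          |(ze D i j r P ω l - z0 D J w i j r P ω l) +
            (z0 D J w i j r P ω l - z0 D J w i j r P ω' l) +
            (z0 D J w i j r P ω' l - ze D i j r P ω' l)| := by
            congr 1
            ring
        _ ≤ _ := abs_add_three _ _ _
    nlinarith only [e5, e1, e2, e3, hτ, hRg1, hRy, hi]
  · have hg1 : gr gam n l := by
      refine ⟨hl1, hln, ?_⟩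
      by_contra hcon
      push Not at hcon
      refine hs ⟨hl1, lt_of_le_of_ne hln ?_, hcon⟩
      intro hln'
      rw [hln'] at hcon
      exact absurd hcon (not_lt.2 (min_le_left _ _))
    obtain ⟨u, hu⟩ := H.gs_on l hg1
    have e1 := hg.grp ω h1 hE l hg1 w hw hw'
    have e2 := hg.grp ω' h2 hE' l hg1 w hw hw'
    have b1 := (hg.bt ω h1 hE l hl1 hln w hw hw')
    have b2 := (hg.bt ω' h2 hE' l hl1 hln w hw hw')
    obtain ⟨b1, b3⟩ := b1
    obtain ⟨b2, b4⟩ := b2
    change |z0 D J w i j r P ω l| ≤ Ry z C at b1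
    change |z0 D J w i j r P ω' l| ≤ Ry z C at b2
    change |be D J w i j r P ω l| ≤ Ry z C at b3
    change |be D J w i j r P ω' l| ≤ Ry z C at b4
    have hRg0 : 0 < Rg z C := by linarith
    have n1 := hnu u (by rw [hu]; exact hl0)
    have n2 := congrFun hbe u
    unfold nuv at n1
    unfold bev at n2
    rw [hu] at n1 n2
    have hdiv : ∀ x : ℝ, |x| ≤ Ry z C → |x / Rg z C| ≤ 1 := by
      intro x hx
      rw [abs_div, abs_of_pos hRg0, div_le_one hRg0]
      linarith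
    have e3 := dg_eq (hdiv _ b1) (hdiv _ b2) n1
    have e4 := dg_eq (hdiv _ b3) (hdiv _ b4) n2
    rw [← sub_div, abs_div, abs_of_pos hRg0, div_le_iff₀ hRg0] at e3 e4
    have x1 := H.ok.X_zero ω
    have x2 := H.ok.X_zero ω'
    have hwJ : w ≤ J := by
      have := H.ok.thin
      have := H.ok.top
      have h3 : (j + 1) * z ≤ (M + 1) * z := Nat.mul_le_mul_right _ (by have := H.j2; omega)
      omega
    obtain ⟨r0, r1⟩ := rt_bd hwJ x1
    have rr := rt_T (J := J) (w := w) x1 x2 hT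
    rw [← rr] at e2
    have e6 : |rt D J w ω * be D J w i j r P ω l - rt D J w ω * be D J w i j r P ω' l| ≤
        ((2 : ℝ) ^ X)⁻¹ * Rg z C := by
      rw [← mul_sub, abs_mul, abs_of_nonneg r0]
      calc rt D J w ω * |be D J w i j r P ω l - be D J w i j r P ω' l| ≤
          1 * |be D J w i j r P ω l - be D J w i j r P ω' l| :=
            mul_le_mul_of_nonneg_right r1 (abs_nonneg _)
        _ ≤ _ := by rw [one_mul]; exact e4
    obtain ⟨f1, f2⟩ := abs_le.1 e1
    obtain ⟨f3, f4⟩ := abs_le.1 e2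
    obtain ⟨f5, f6⟩ := abs_le.1 e3
    obtain ⟨f7, f8⟩ := abs_le.1 e6
    have f9 : ((2 : ℝ) ^ X)⁻¹ ≤ ((2 : ℝ) ^ X)⁻¹ * Rg z C := by nlinarith only [hi, hRg1, hRy]
    rw [abs_le]
    constructor <;> nlinarith only [f1, f2, f3, f4, f5, f6, f7, f8, f9, hτ]

/-- The heights of the base over the visible labels are determined by the picture. -/
theorem sh_near (H : Hyp D n K K' J a₀ w₀ z M w i j r r' r'' y X lam gam κ C₁ C q E P S ys gs)
    {ω ω' : D.Ω} (h1 : 0 < q ω) (h2 : 0 < q ω') (hE : E ω) (hE' : E ω')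
    (hb : cb D J w i j r ω = cb D J w i j r ω') (hT : D.T ω = D.T ω')
    (hy : yv D J w z i j r X C P ys ω = yv D J w z i j r X C P ys ω')
    (hbe : bev D J w z i j r X C P gs ω = bev D J w z i j r X C P gs ω')
    (hnu : ∀ u, gs u ≠ n →
      nuv D J w z i j r X C P gs ω u = nuv D J w z i j r X C P gs ω' u)
    {l : ℕ} (hl1 : 1 ≤ l) (hln : l < n) :
    |2 ^ D.g i j l * D.sh i j ω l - 2 ^ D.g i j l * D.sh i j ω' l| ≤
      Ry z C * (8 * Rg z C * ((2 : ℝ) ^ X)⁻¹) := by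
  have hC0 : 0 ≤ C := by linarith [H.Cg]
  have hRy := Ry_one hC0 z
  have hRg := Rg_eq z C
  have hbb : bb D i j r ω = bb D i j r ω' := (Prod.ext_iff.1 hb).1
  refine H.geo.toV ω ω' h1 h2 hE hE' hbb hT l hl1 hln.le _ (by
    rw [hRg]
    positivity) fun k hk1 hkl => ?_
  exact ze_near H h1 h2 hE hE' hT hy hbe n hnu hk1 (hkl.trans hln.le) (by omega)

/-- The height of the target is determined by the picture and by its height over the visible
label. -/
theorem nu_near (H : Hyp D n K K' J a₀ w₀ z M w i j r r' r'' y X lam gam κ C₁ C q E P S ys gs)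
    {ω ω' : D.Ω} (h1 : 0 < q ω) (h2 : 0 < q ω') (hE : E ω) (hE' : E ω')
    (hb : cb D J w i j r ω = cb D J w i j r ω') (hT : D.T ω = D.T ω')
    (hy : yv D J w z i j r X C P ys ω = yv D J w z i j r X C P ys ω')
    (hbe : bev D J w z i j r X C P gs ω = bev D J w z i j r X C P gs ω')
    (hnu : ∀ u, gs u ≠ n →
      nuv D J w z i j r X C P gs ω u = nuv D J w z i j r X C P gs ω' u) {n₀ : Fin c}
    (hn : gs n₀ = n) (hnd : D.nd n i j X ω = D.nd n i j X ω') :
    |((nuv D J w z i j r X C P gs ω n₀ - nuv D J w z i j r X C P gs ω' n₀ : ℤ) : ℝ)| ≤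
      12 * (Ry z C * Ry z C) := by
  have hC0 : 0 ≤ C := by linarith [H.Cg]
  have hRy := Ry_one hC0 z
  have hRg := Rg_eq z C
  have hp : (0 : ℝ) < 2 ^ X := by positivity
  have hi : (0 : ℝ) < ((2 : ℝ) ^ X)⁻¹ := by positivity
  have hpi : (2 : ℝ) ^ X * ((2 : ℝ) ^ X)⁻¹ = 1 := mul_inv_cancel₀ hp.ne'
  have hRg1 : 2 * Ry z C ≤ Rg z C := by
    rw [hRg]
    nlinarith only [hRy]
  have hRg0 : 0 < Rg z C := by linarith
  have hgn : gr gam n n := hn ▸ H.gs_gr n₀
  have hn1 := H.n1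
  have hg := H.geo
  have hw := H.w1
  have hw' := H.w2
  have hbb : bb D i j r ω = bb D i j r ω' := (Prod.ext_iff.1 hb).1
  have hτ : exp (C * z) / 2 ^ (y * z) ≤ ((2 : ℝ) ^ X)⁻¹ := by
    rw [div_le_iff₀ (by positivity), inv_mul_eq_div, le_div_iff₀ hp]
    exact H.yX
  have k1 : |ze D i j r P ω n - ze D i j r P ω' n| ≤
      Ry z C * (Ry z C * (8 * Rg z C * ((2 : ℝ) ^ X)⁻¹)) := by
    refine hg.ofV ω ω' h1 h2 hE hE' hbb hT n hn1 le_rfl _ (by positivity) fun k hk1 hkn => ?_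
    rcases lt_or_eq_of_le hkn with hk | hk
    · exact sh_near H h1 h2 hE hE' hb hT hy hbe hnu hk1 hk
    · subst hk
      unfold NDat2.nd at hnd
      have e1 := fl_eq hnd
      rw [pow_add] at e1
      have e2 : (2 : ℝ) ^ D.g i j k * 2 ^ X * D.sh i j ω k -
          2 ^ D.g i j k * 2 ^ X * D.sh i j ω' k =
          2 ^ X * (2 ^ D.g i j k * D.sh i j ω k - 2 ^ D.g i j k * D.sh i j ω' k) := by ring
      rw [e2, abs_mul, abs_of_pos hp] at e1
      have e3 : |2 ^ D.g i j k * D.sh i j ω k - 2 ^ D.g i j k * D.sh i j ω' k| ≤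
          ((2 : ℝ) ^ X)⁻¹ := by
        rw [← one_div, le_div_iff₀ hp]
        linarith
      refine e3.trans ?_
      have e4 : 1 ≤ Ry z C * (8 * Rg z C) := by nlinarith only [hRy, hRg1]
      calc ((2 : ℝ) ^ X)⁻¹ = 1 * ((2 : ℝ) ^ X)⁻¹ := by ring
        _ ≤ (Ry z C * (8 * Rg z C)) * ((2 : ℝ) ^ X)⁻¹ := mul_le_mul_of_nonneg_right e4 hi.le
        _ = _ := by ring
  have e1 := hg.grp ω h1 hE n hgn w hw hw'
  have e2 := hg.grp ω' h2 hE' n hgn w hw hw'
  obtain ⟨b1, b3⟩ := hg.bt ω h1 hE n hn1 le_rfl w hw hw'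
  obtain ⟨b2, b4⟩ := hg.bt ω' h2 hE' n hn1 le_rfl w hw hw'
  change |z0 D J w i j r P ω n| ≤ Ry z C at b1
  change |z0 D J w i j r P ω' n| ≤ Ry z C at b2
  change |be D J w i j r P ω n| ≤ Ry z C at b3
  change |be D J w i j r P ω' n| ≤ Ry z C at b4
  have n2 := congrFun hbe n₀
  unfold bev at n2
  rw [hn] at n2
  have hdiv : ∀ x : ℝ, |x| ≤ Ry z C → |x / Rg z C| ≤ 1 := by
    intro x hx
    rw [abs_div, abs_of_pos hRg0, div_le_one hRg0]
    linarith
  have e4 := dg_eq (hdiv _ b3) (hdiv _ b4) n2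
  rw [← sub_div, abs_div, abs_of_pos hRg0, div_le_iff₀ hRg0] at e4
  have x1 := H.ok.X_zero ω
  have x2 := H.ok.X_zero ω'
  have hwJ : w ≤ J := by
    have := H.ok.thin
    have := H.ok.top
    have h3 : (j + 1) * z ≤ (M + 1) * z := Nat.mul_le_mul_right _ (by have := H.j2; omega)
    omega
  obtain ⟨r0, r1⟩ := rt_bd hwJ x1
  have rr := rt_T (J := J) (w := w) x1 x2 hT
  rw [← rr] at e2
  have e6 : |rt D J w ω * be D J w i j r P ω n - rt D J w ω * be D J w i j r P ω' n| ≤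
      ((2 : ℝ) ^ X)⁻¹ * Rg z C := by
    rw [← mul_sub, abs_mul, abs_of_nonneg r0]
    calc rt D J w ω * |be D J w i j r P ω n - be D J w i j r P ω' n| ≤
        1 * |be D J w i j r P ω n - be D J w i j r P ω' n| :=
          mul_le_mul_of_nonneg_right r1 (abs_nonneg _)
      _ ≤ _ := by rw [one_mul]; exact e4
  have e7 : |z0 D J w i j r P ω n - z0 D J w i j r P ω' n| ≤
      Ry z C * (Ry z C * (8 * Rg z C * ((2 : ℝ) ^ X)⁻¹)) + 2 * ((2 : ℝ) ^ X)⁻¹ +
        ((2 : ℝ) ^ X)⁻¹ * Rg z C := by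
    obtain ⟨f1, f2⟩ := abs_le.1 e1
    obtain ⟨f3, f4⟩ := abs_le.1 e2
    obtain ⟨f5, f6⟩ := abs_le.1 k1
    obtain ⟨f7, f8⟩ := abs_le.1 e6
    rw [abs_le]
    constructor <;> linarith
  have e8 := dg_sub (X := X) (hdiv _ b1) (hdiv _ b2)
  rw [← sub_div, abs_div, abs_of_pos hRg0] at e8
  unfold nuv
  rw [hn]
  refine e8.trans ?_
  have e9 : (2 : ℝ) ^ X * (|z0 D J w i j r P ω n - z0 D J w i j r P ω' n| / Rg z C) ≤
      8 * (Ry z C * Ry z C) + 2 + 1 := by
    rw [← mul_div_assoc, div_le_iff₀ hRg0]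
    calc (2 : ℝ) ^ X * |z0 D J w i j r P ω n - z0 D J w i j r P ω' n| ≤
        2 ^ X * (Ry z C * (Ry z C * (8 * Rg z C * ((2 : ℝ) ^ X)⁻¹)) + 2 * ((2 : ℝ) ^ X)⁻¹ +
        ((2 : ℝ) ^ X)⁻¹ * Rg z C) := mul_le_mul_of_nonneg_left e7 hp.le
      _ = (2 ^ X * ((2 : ℝ) ^ X)⁻¹) * (8 * (Ry z C * Ry z C) * Rg z C + 2 + Rg z C) := by ring
      _ = 8 * (Ry z C * Ry z C) * Rg z C + 2 + Rg z C := by rw [hpi, one_mul]
      _ ≤ (8 * (Ry z C * Ry z C) + 2 + 1) * Rg z C := by nlinarith only [hRy, hRg1]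
  nlinarith only [e9, hRy]

/-! ### Entropies -/

/-- The digits of an integer below a depth. -/
theorem CH_one_low {Ω T : Type} [Fintype Ω] {p : Ω → ℝ} (hp : IsLaw p) (a : Ω → ℤ) (e : ℕ)
    (V : Ω → T) : CH p a (fun ω => (a ω / 2 ^ e, V ω)) ≤ e * Real.log 2 := by
  classical
  refine (CH_mono_left hp.nonneg (X' := fun ω => a ω % 2 ^ e) ?_).trans ?_
  · intro ω ω' _ _ h
    simp only [Prod.mk.injEq] at h
    obtain ⟨h1, h2, -⟩ := h
    have h3 := Int.emod_add_mul_ediv (a ω) (2 ^ e)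
    have h4 := Int.emod_add_mul_ediv (a ω') (2 ^ e)
    rw [h1, h2] at h3
    exact h3.symm.trans h4
  · have h3 := CH_le_card hp.nonneg hp.sum_one (fun ω => a ω % 2 ^ e)
      (fun ω => (a ω / 2 ^ e, V ω)) (fun _ => Finset.Ico (0 : ℤ) (2 ^ e)) (fun ω _ => by
        rw [Finset.mem_Ico]
        exact ⟨Int.emod_nonneg _ (by positivity), Int.emod_lt_of_pos _ (by positivity)⟩)
    refine h3.trans (le_of_eq ?_)
    rw [Ex_const hp.sum_one]
    simp only [Int.card_Ico, sub_zero]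
    have h6 : ((2 : ℤ) ^ e).toNat = 2 ^ e := by
      have : (2 : ℤ) ^ e = ((2 ^ e : ℕ) : ℤ) := by push_cast; rfl
      rw [this, Int.toNat_natCast]
    rw [h6]
    push_cast
    rw [Real.log_pow]

theorem cond_true {Ω : Type} [Fintype Ω] {p : Ω → ℝ} (hp : IsLaw p) :
    Pool.Agent.H49.Ent.cond p (fun _ => True) True = p := by
  classical
  funext ω
  have h1 : law p (fun _ : Ω => True) True = 1 := by
    unfold law
    simp only [if_true]
    exact hp.sum_one
  unfold Pool.Agent.H49.Ent.cond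
  simp only [if_true]
  rw [h1, div_one]

/-- Digits of the height of the target. -/
theorem nd_div (D : NDat2) (n i j a e : ℕ) (ω : D.Ω) :
    D.nd n i j (a + e) ω / 2 ^ e = D.nd n i j a ω := by
  unfold NDat2.nd
  have h := Pool.QC98.floor_fine (D.sh i j ω n) (D.g i j n + a) e
  rw [h, add_assoc]

theorem sh_bd {g : ℕ} {x : ℝ} (h : |x| ≤ 1 / 2 ^ g) (X : ℕ) :
    |((⌊(2 : ℝ) ^ (g + X) * x⌋ : ℤ) : ℝ)| ≤ 2 ^ X := by
  have hp : (0 : ℝ) < 2 ^ X := by positivity
  have hg : (0 : ℝ) < 2 ^ g := by positivity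
  have h1 : |(2 : ℝ) ^ (g + X) * x| ≤ 2 ^ X := by
    rw [abs_mul, abs_of_pos (by positivity), pow_add]
    rw [le_div_iff₀ hg] at h
    nlinarith
  obtain ⟨h2, h3⟩ := abs_le.1 h1
  rw [abs_le]
  constructor
  · have : (-(2 : ℤ) ^ X) ≤ ⌊(2 : ℝ) ^ (g + X) * x⌋ := by
      rw [Int.le_floor]
      push_cast
      exact h2
    have h5 : ((-(2 : ℤ) ^ X : ℤ) : ℝ) ≤ (⌊(2 : ℝ) ^ (g + X) * x⌋ : ℝ) := by exact_mod_cast this
    push_cast at h5
    exact h5
  · exact (Int.floor_le _).trans h3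

theorem log64 {C : ℝ} (hC : 0 ≤ C) {z : ℕ} (hz : 1 ≤ z) {t : ℝ} (ht : 0 < t)
    (h : t ≤ 64 * (Ry z C * (Ry z C * Ry z C))) : Real.log t ≤ (5 + 3 * C) * z := by
  have hRy := Ry_one hC z
  have hl : Real.log 2 < 0.6931471808 := Real.log_two_lt_d9
  have hz1 : (1 : ℝ) ≤ z := by exact_mod_cast hz
  have h1 := Real.log_le_log ht h
  have h2 : Real.log (64 * (Ry z C * (Ry z C * Ry z C))) = 6 * Real.log 2 + 3 * (C * z) := by
    have e1 : (64 : ℝ) = 2 ^ 6 := by norm_num
    have e2 : Real.log (Ry z C) = C * z := by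
      unfold Ry
      exact Real.log_exp _
    rw [Real.log_mul (by norm_num) (by positivity), Real.log_mul (by positivity) (by positivity),
      Real.log_mul (by positivity) (by positivity), e1, Real.log_pow, e2]
    push_cast
    ring
  rw [h2] at h1
  nlinarith

theorem log_4X (X : ℕ) : Real.log (4 * 2 ^ X + 1) ≤ 3 + X := by
  have hl : Real.log 2 < 0.6931471808 := Real.log_two_lt_d9
  have hl0 : 0 < Real.log 2 := Real.log_pos (by norm_num)
  have hp : (1 : ℝ) ≤ 2 ^ X := one_le_pow₀ (by norm_num)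
  have h1 : Real.log (4 * 2 ^ X + 1) ≤ Real.log (2 ^ 3 * 2 ^ X) :=
    Real.log_le_log (by positivity) (by nlinarith)
  have h2 : Real.log ((2 : ℝ) ^ 3 * 2 ^ X) = 3 * Real.log 2 + X * Real.log 2 := by
    rw [Real.log_mul (by norm_num) (by positivity), Real.log_pow, Real.log_pow]
    push_cast
    ring
  have h3 : (X : ℝ) * Real.log 2 ≤ X * 1 :=
    mul_le_mul_of_nonneg_left (by linarith) (Nat.cast_nonneg X)
  linarith

/-- **(NF)** -/
theorem nf_stmt : NFStmt := by
  classical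
  intro n K K' c k B C₁ C hB
  refine ⟨n * (12 + 3 * |C|) + |C₁| + (20 + 3 * |C|), by positivity, ?_⟩
  intro D J a₀ w₀ z M w i j r r' r'' y U lam gam κ h ϖ q E P S ys gs n₀ H hNF hh hh1 hϖ hn₀ hU hU'
  obtain ⟨X, hX⟩ : ∃ X, X = B * U * z := ⟨_, rfl⟩
  rw [← hX] at H ⊢
  have hp := H.ok.isLaw
  have h0 := hp.nonneg
  have hC0 : 0 ≤ C := by linarith [H.Cg]
  have hRy := Ry_one hC0 z
  have hRg := Rg_eq z C
  have hz := H.z1
  have hz1 : (1 : ℝ) ≤ z := by exact_mod_cast hz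
  have hl : Real.log 2 < 0.6931471808 := Real.log_two_lt_d9
  have hl0 : 0 < Real.log 2 := Real.log_pos (by norm_num)
  have hgn : gr gam n n := hn₀ ▸ H.gs_gr n₀
  have hpX : (0 : ℝ) < 2 ^ X := by positivity
  have hiM : i ≤ M := by have := H.i2; omega
  have hjM : j ≤ M := by have := H.j2; omega
  have hUX : U * z ≤ X := by
    rw [hX]
    calc U * z = 1 * (U * z) := (one_mul _).symm
      _ ≤ B * (U * z) := Nat.mul_le_mul_right _ hB
      _ = B * U * z := (mul_assoc _ _ _).symm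
  -- the context
  obtain ⟨W, hW⟩ : ∃ W : D.Ω → ({u : Fin c // u ≠ n₀} → ℤ) × ((((D.Γ × D.Γ) × ℕ) ×
      ((Fin k → ℤ) × (Fin c → ℤ))) × ((((D.Γ × D.Γ) × ℕ) × (ℕ × (Fin c → Fin k → ℤ))) ×
      ((D.Γ × D.Γ) × ℕ))), W = fun ω =>
      ((fun u : {u : Fin c // u ≠ n₀} => nuv D J w z i j r X C P gs ω u),
          (vv D J w z i j r X C P ys gs ω,
            (tv D J w z i j r X C S ys gs ω, cb D J w i j r ω))) := ⟨_, rfl⟩
  have hWd : ∀ ω ω', W ω = W ω' → cb D J w i j r ω = cb D J w i j r ω' ∧ D.T ω = D.T ω' ∧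
      yv D J w z i j r X C P ys ω = yv D J w z i j r X C P ys ω' ∧
      bev D J w z i j r X C P gs ω = bev D J w z i j r X C P gs ω' ∧
      ∀ u, gs u ≠ n → nuv D J w z i j r X C P gs ω u = nuv D J w z i j r X C P gs ω' u := by
    intro ω ω' e
    rw [hW] at e
    simp only [Prod.mk.injEq] at e
    obtain ⟨e1, e2, e3, e4⟩ := e
    unfold Pool.P4.vv at e2
    unfold tv at e3
    simp only [Prod.mk.injEq] at e2 e3
    refine ⟨e4, e3.2.1, e2.2.1, e2.2.2, fun u hu => ?_⟩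
    have := congrFun e1 ⟨u, fun h => hu (by rw [h, hn₀])⟩
    exact this
  have goal : CH q (fun ω => nuv D J w z i j r X C P gs ω n₀) W ≤
      (1 - h / B) * (X : ℕ) * Real.log 2 +
        err (n * (12 + 3 * |C|) + |C₁| + (20 + 3 * |C|)) κ z X (Pb q (fun ω => ¬ E ω)) := by
    obtain ⟨b, hb⟩ : ∃ b, b = Pb q (fun ω => ¬ E ω) := ⟨_, rfl⟩
    have hb0 : 0 ≤ b := hb ▸ Pb_nonneg h0 _
    have hb1 : b ≤ 1 := by
      have e1 := Pb_not hp.sum_one E
      have e2 := Pb_nonneg h0 E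
      rw [hb]
      linarith
    have hbX : b * (3 + X) ≤ 3 + X * b := by nlinarith
    have a1 := CH_le_add h0 (fun ω => nuv D J w z i j r X C P gs ω n₀) (D.nd n i j X) W
    have a2 := CH_le_add h0 (D.nd n i j X) (D.vd n i j X) W
    have a3 : CH q (D.nd n i j X) (fun ω => (D.vd n i j X ω, W ω)) ≤
        CH q (D.nd n i j X) (fun ω => (D.vd n i j X ω, (D.s i j ω, D.T ω))) := by
      refine CH_mono_cond h0 ?_
      intro ω ω' g1 g2 e
      simp only [Prod.mk.injEq] at e ⊢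
      obtain ⟨e1, e2⟩ := e
      obtain ⟨d1, d2, -⟩ := hWd ω ω' e2
      have d3 : D.c i j ω = D.c i j ω' := (Prod.ext_iff.1 (Prod.ext_iff.1 d1).1).1
      exact ⟨e1, H.ok.s_c i hiM j hjM ω ω' g1 g2 (Prod.ext d3 d2), d2⟩
    have a4 := CH_le_add h0 (D.nd n i j X) (D.nd n i j (U * z))
      (fun ω => (D.vd n i j X ω, (D.s i j ω, D.T ω)))
    have a5 : CH q (D.nd n i j X) (fun ω => (D.nd n i j (U * z) ω,
        (D.vd n i j X ω, (D.s i j ω, D.T ω)))) ≤ ((X - U * z : ℕ) : ℝ) * Real.log 2 := by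
      have e1 := CH_one_low hp (D.nd n i j X) (X - U * z)
        (fun ω => (D.vd n i j X ω, (D.s i j ω, D.T ω)))
      have e2 : (fun ω => (D.nd n i j X ω / 2 ^ (X - U * z),
          (D.vd n i j X ω, (D.s i j ω, D.T ω)))) = (fun ω => (D.nd n i j (U * z) ω,
          (D.vd n i j X ω, (D.s i j ω, D.T ω)))) := by
        funext ω
        have e3 := nd_div D n i j (U * z) (X - U * z) ω
        rw [Nat.add_sub_cancel' hUX] at e3
        rw [e3]
      rw [e2] at e1
      exact e1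
    have a6 := CH_le_add h0 (D.nd n i j (U * z)) (D.nd n i j 0)
      (fun ω => (D.vd n i j X ω, (D.s i j ω, D.T ω)))
    have a7 : CH q (D.nd n i j (U * z)) (fun ω => (D.nd n i j 0 ω,
        (D.vd n i j X ω, (D.s i j ω, D.T ω)))) ≤ (1 - h) * (U * z) * Real.log 2 + C₁ * z := by
      have e1 := hNF i hiM j hjM 0 U (by omega) (by push_cast; linarith) (fun _ => True) (by
        have : Pb q (fun _ : D.Ω => True) = 1 := by
          unfold Pb
          simp only [if_true]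
          exact hp.sum_one
        rw [this]
        exact hϖ)
      rw [cond_true hp] at e1
      simp only [zero_add, zero_mul] at e1
      have e2 : B * (U * z) = X := by rw [hX, mul_assoc]
      rw [e2] at e1
      exact e1
    have a8 : CH q (D.nd n i j 0) (fun ω => (D.vd n i j X ω, (D.s i j ω, D.T ω))) ≤ 2 := by
      have e1 := CH_le_card h0 hp.sum_one (D.nd n i j 0)
        (fun ω => (D.vd n i j X ω, (D.s i j ω, D.T ω))) (fun _ => Finset.Icc (-1 : ℤ) 1)
        (fun ω hω => by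
          have e2 := sh_bd (H.ok.pos i hiM j hjM ω hω n H.n1 le_rfl) 0
          unfold NDat2.nd
          rw [pow_zero] at e2
          have e3 := abs_le.1 e2
          rw [Finset.mem_Icc]
          constructor
          · exact_mod_cast e3.1
          · exact_mod_cast e3.2)
      refine e1.trans ?_
      rw [Ex_const hp.sum_one]
      have e4 : (Finset.Icc (-1 : ℤ) 1).card = 3 := by decide
      rw [e4]
      have e5 : Real.log ((3 : ℕ) : ℝ) ≤ Real.log (2 ^ 2) :=
        Real.log_le_log (by norm_num) (by norm_num)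
      rw [Real.log_pow] at e5
      push_cast at e5 ⊢
      linarith
    have hnn : ((n - 1 : ℕ) : ℝ) ≤ n := by exact_mod_cast Nat.sub_le n 1
    have b1 : CH q (D.vd n i j X) W ≤ 1 + n * ((5 + 3 * C) * z + (3 + X * b)) := by
      have e1 := few_ev hp E (D.vd n i j X) W (L := 8 * (Ry z C * Rg z C) + 1)
        (Q := 2 ^ X) (by
          rw [hRg]
          positivity) hpX.le (by
          intro ω ω' g1 g2 hE hE' e l
          obtain ⟨d1, d2, d3, d4, d5⟩ := hWd ω ω' e
          have e2 := sh_near H g1 g2 hE hE' d1 d2 d3 d4 d5 (l := l + 1) (by omega)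
            (by have := l.2; omega)
          unfold NDat2.vd
          refine (fl_sub _ _).trans ?_
          rw [pow_add]
          have e3 : (2 : ℝ) ^ D.g i j (l + 1) * 2 ^ X * D.sh i j ω (l + 1) -
              2 ^ D.g i j (l + 1) * 2 ^ X * D.sh i j ω' (l + 1) =
              2 ^ X * (2 ^ D.g i j (l + 1) * D.sh i j ω (l + 1) -
                2 ^ D.g i j (l + 1) * D.sh i j ω' (l + 1)) := by ring
          rw [e3, abs_mul, abs_of_pos hpX]
          have e4 := mul_le_mul_of_nonneg_left e2 hpX.le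
          have e5 : (2 : ℝ) ^ X * (Ry z C * (8 * Rg z C * ((2 : ℝ) ^ X)⁻¹)) =
              8 * (Ry z C * Rg z C) := by
            field_simp
          rw [e5] at e4
          linarith) (by
          intro ω hω l
          exact sh_bd (H.ok.pos i hiM j hjM ω hω (l + 1) (by omega)
            (by have := l.2; omega)) X)
      refine e1.trans ?_
      have e2 := log64 hC0 hz (t := 2 * (8 * (Ry z C * Rg z C) + 1) + 1) (by
        rw [hRg]
        positivity) (by
        rw [hRg]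
        have : 1 ≤ Ry z C * (Ry z C * Ry z C) := by
          have : 1 ≤ Ry z C * Ry z C := by nlinarith only [hRy]
          nlinarith only [this, hRy]
        nlinarith only [this])
      have e3 := log_4X X
      rw [← hb]
      have e4 : b * Real.log (4 * 2 ^ X + 1) ≤ 3 + X * b :=
        (mul_le_mul_of_nonneg_left e3 hb0).trans hbX
      have e5 : 0 ≤ (5 + 3 * C) * z + (3 + X * b) := by positivity
      have e6 : ((n - 1 : ℕ) : ℝ) * (Real.log (2 * (8 * (Ry z C * Rg z C) + 1) + 1) +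
          b * Real.log (4 * 2 ^ X + 1)) ≤ n * ((5 + 3 * C) * z + (3 + X * b)) :=
        (mul_le_mul_of_nonneg_left (by linarith) (Nat.cast_nonneg _)).trans
          (mul_le_mul_of_nonneg_right hnn e5)
      linarith
    have b2 : CH q (fun ω => nuv D J w z i j r X C P gs ω n₀)
        (fun ω => (D.nd n i j X ω, W ω)) ≤ 1 + ((5 + 3 * C) * z + (3 + X * b)) := by
      have e0 : CH q (fun ω => nuv D J w z i j r X C P gs ω n₀)
          (fun ω => (D.nd n i j X ω, W ω)) ≤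
          CH q (fun ω (_ : Fin 1) => nuv D J w z i j r X C P gs ω n₀)
          (fun ω => (D.nd n i j X ω, W ω)) := by
        refine CH_mono_left h0 ?_
        intro ω ω' _ _ e
        simp only [Prod.mk.injEq] at e
        exact congrFun e.1 0
      have e1 := few_ev hp E (fun ω (_ : Fin 1) => nuv D J w z i j r X C P gs ω n₀)
        (fun ω => (D.nd n i j X ω, W ω)) (L := 12 * (Ry z C * Ry z C)) (Q := 2 ^ X)
        (by positivity) hpX.le (by
          intro ω ω' g1 g2 hE hE' e _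
          simp only [Prod.mk.injEq] at e
          obtain ⟨d1, d2, d3, d4, d5⟩ := hWd ω ω' e.2
          exact nu_near H g1 g2 hE hE' d1 d2 d3 d4 d5 hn₀ e.1) (by
          intro ω _ _
          exact dg_bd _ _)
      refine e0.trans (e1.trans ?_)
      have e2 := log64 hC0 hz (t := 2 * (12 * (Ry z C * Ry z C)) + 1) (by positivity) (by
        have h5 : 1 ≤ Ry z C * Ry z C := by nlinarith only [hRy]
        have h6 : Ry z C * Ry z C ≤ Ry z C * (Ry z C * Ry z C) := by nlinarith only [h5, hRy]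
        nlinarith only [h5, h6])
      have e3 := log_4X X
      rw [← hb]
      have e4 : b * Real.log (4 * 2 ^ X + 1) ≤ 3 + X * b :=
        (mul_le_mul_of_nonneg_left e3 hb0).trans hbX
      push_cast
      linarith
    -- the numbers
    have hsub : ((X - U * z : ℕ) : ℝ) = X - U * z := by
      rw [Nat.cast_sub hUX]
      push_cast
      ring
    rw [hsub] at a5
    have hBr : (1 : ℝ) ≤ B := by exact_mod_cast hB
    have hXr : (X : ℝ) = B * (U * z) := by
      rw [hX]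
      push_cast
      ring
    have hmain : (1 - h) * (U * z) * Real.log 2 + ((X : ℝ) - U * z) * Real.log 2 =
        (1 - h / B) * (X : ℝ) * Real.log 2 := by
      rw [hXr]
      field_simp
      ring
    have hκ := H.κ0
    have hCC := le_abs_self C
    have hCC1 := le_abs_self C₁
    have hn0 : (0 : ℝ) ≤ n := Nat.cast_nonneg n
    have hn1 : (1 : ℝ) ≤ n := by exact_mod_cast H.n1
    unfold err
    rw [← hb]
    have hXb : 0 ≤ (X : ℝ) * b := by positivity
    obtain ⟨Ca, hCa⟩ : ∃ Ca, Ca = |C| := ⟨_, rfl⟩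
    obtain ⟨Cb, hCb⟩ : ∃ Cb, Cb = |C₁| := ⟨_, rfl⟩
    have hCa0 : 0 ≤ Ca := hCa ▸ abs_nonneg _
    have hCb0 : 0 ≤ Cb := hCb ▸ abs_nonneg _
    rw [← hCa, ← hCb]
    rw [← hCa] at hCC
    rw [← hCb] at hCC1
    obtain ⟨t, ht⟩ : ∃ t : ℝ, t = z + X * b := ⟨_, rfl⟩
    have ht1 : 1 ≤ t := by linarith
    have hzt : (z : ℝ) ≤ t := by linarith
    have c1 : (5 + 3 * C) * z + (3 + X * b) ≤ (8 + 3 * Ca) * t := by
      rw [ht]
      have e1 : C * z ≤ Ca * z := mul_le_mul_of_nonneg_right hCC (by linarith)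
      have e2 : 0 ≤ Ca * (X * b) := by positivity
      nlinarith only [e1, e2, hz1, hXb]
    have c2 : (n : ℝ) * ((5 + 3 * C) * z + (3 + X * b)) ≤ n * ((8 + 3 * Ca) * t) :=
      mul_le_mul_of_nonneg_left c1 hn0
    have c3 : C₁ * z ≤ Cb * t := (mul_le_mul_of_nonneg_right hCC1 (by linarith)).trans
      (mul_le_mul_of_nonneg_left hzt hCb0)
    have c4 : ((n : ℝ) * (12 + 3 * Ca) + Cb + (20 + 3 * Ca)) * t ≤
        ((n : ℝ) * (12 + 3 * Ca) + Cb + (20 + 3 * Ca)) * ((1 + κ) * z + X * b) := by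
      refine mul_le_mul_of_nonneg_left ?_ (by positivity)
      rw [ht]
      have : 0 ≤ κ * z := by positivity
      linarith
    have c5 : 1 + n * ((8 + 3 * Ca) * t) + (1 + (8 + 3 * Ca) * t) + Cb * t + 2 ≤
        ((n : ℝ) * (12 + 3 * Ca) + Cb + (20 + 3 * Ca)) * t := by
      have : 0 ≤ (n : ℝ) * t := by positivity
      nlinarith only [this, ht1]
    linarith
  rw [hW] at goal
  exact goal

end Pool.P4N
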