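import Pool.Agent.H14.P4.Stm

/-!
# The visible chart (P4)

`zd ω l`: the height of the exact point of the sample over a visible frame, in units of `(i, j)`,
`s`: the visible record. `Dch`: the deterministic properties which the entropic pieces use. `nuD`,
`yD`: the digits.
-/

set_option autoImplicit false

namespace Pool.P4

open Finset Real
open Pool.Agent.H49.Ent Pool.Agent.H32.Dense Pool.STK Pool.STAT Pool.MIC.Frm

/-- **The visible chart.** -/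
structure Dch (D : NDat2) (n z i j r X : ℕ) (C : ℝ) (q : D.Ω → ℝ) (E : D.Ω → Prop)
    (P : D.Γ × D.Γ → ℕ → PN) {Sg : Type} (s : D.Ω → Sg) (zd : D.Ω → ℕ → ℝ) : Prop where
  bs : ∀ ω ω', 0 < q ω → 0 < q ω' → bb D i j r ω = bb D i j r ω' → D.T ω = D.T ω' → s ω = s ω'
  sT : ∀ ω ω', 0 < q ω → 0 < q ω' → s ω = s ω' → D.T ω = D.T ω' ∧ D.s i j ω = D.s i j ω'
  bd : ∀ ω, 0 < q ω → E ω → ∀ l, 1 ≤ l → l ≤ n → |zd ω l| ≤ exp (C * z)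
  -- the visible frame and the visible labels at `(i, j)`
  toS : ∀ ω ω', 0 < q ω → 0 < q ω' → E ω → E ω' → s ω = s ω' → ∀ l, 1 ≤ l → l ≤ n →
    ∀ δ : ℝ, 0 ≤ δ → (∀ k, 1 ≤ k → k ≤ l → |zd ω k - zd ω' k| ≤ δ) →
    |2 ^ D.g i j l * D.sh i j ω l - 2 ^ D.g i j l * D.sh i j ω' l| ≤ exp (C * z) * δ
  ofS : ∀ ω ω', 0 < q ω → 0 < q ω' → E ω → E ω' → s ω = s ω' → ∀ l, 1 ≤ l → l ≤ n →
    ∀ δ : ℝ, 0 ≤ δ → (∀ k, 1 ≤ k → k ≤ l →
      |2 ^ D.g i j k * D.sh i j ω k - 2 ^ D.g i j k * D.sh i j ω' k| ≤ δ) →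
    |zd ω l - zd ω' l| ≤ exp (C * z) * δ
  -- the visible frame and the closed frame
  toE : ∀ ω ω', 0 < q ω → 0 < q ω' → E ω → E ω' → bb D i j r ω = bb D i j r ω' →
    D.T ω = D.T ω' → ∀ l, 1 ≤ l → l ≤ n → ∀ δ : ℝ, ((2 : ℝ) ^ X)⁻¹ ≤ δ →
    (∀ k, 1 ≤ k → k ≤ l → |zd ω k - zd ω' k| ≤ δ) →
    |ze D i j r P ω l - ze D i j r P ω' l| ≤ exp (C * z) * δ
  ofE : ∀ ω ω', 0 < q ω → 0 < q ω' → E ω → E ω' → bb D i j r ω = bb D i j r ω' →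
    D.T ω = D.T ω' → ∀ l, 1 ≤ l → l ≤ n → ∀ δ : ℝ, ((2 : ℝ) ^ X)⁻¹ ≤ δ →
    (∀ k, 1 ≤ k → k ≤ l → |ze D i j r P ω k - ze D i j r P ω' k| ≤ δ) →
    |zd ω l - zd ω' l| ≤ exp (C * z) * δ

section

variable {D : NDat2} {c k : ℕ} (z X : ℕ) (C : ℝ) (zd : D.Ω → ℕ → ℝ) (ys : Fin k → ℕ)
  (gs : Fin c → ℕ)

/-- The heights of the group over the visible frame. -/
noncomputable def nuD (ω : D.Ω) (u : Fin c) : ℤ := dg X (zd ω (gs u) / Rg z C)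

/-- The slow coordinates over the visible frame. -/
noncomputable def yD (ω : D.Ω) (a : Fin k) : ℤ :=
  dgp X ((zd ω (ys a) + Ry z C) / (2 * Ry z C))

end

end Pool.P4
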