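import Pool.Agent.H7.MIC.Inf

/-!
# Few values on an event (P4)

`few_ev`: a vector of integers which is determined up to `L` by `W` on the event `E`, bounded
everywhere.
-/

set_option autoImplicit false

namespace Pool.P4N

open Finset Real
open Pool.Agent.H49.Ent Pool.Agent.H32.Dense Pool.STK Pool.MIC
open Pool.BFL (Pb)

/-- Few values on an event, bounded values everywhere. -/
theorem few_ev {Ω T : Type} [Fintype Ω] {q : Ω → ℝ} (hq : IsLaw q) {d : ℕ} (E : Ω → Prop)
    (D : Ω → Fin d → ℤ) (W : Ω → T) {L Q : ℝ} (hL : 0 ≤ L) (hQ : 0 ≤ Q)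
    (h1 : ∀ ω ω', 0 < q ω → 0 < q ω' → E ω → E ω' → W ω = W ω' →
      ∀ i, |((D ω i - D ω' i : ℤ) : ℝ)| ≤ L)
    (h2 : ∀ ω, 0 < q ω → ∀ i, |(D ω i : ℝ)| ≤ Q) :
    CH q D W ≤ Real.log 2 + d * (Real.log (2 * L + 1) +
      Pb q (fun ω => ¬ E ω) * Real.log (4 * Q + 1)) := by
  classical
  have h0 := hq.nonneg
  have a1 := CH_le_add h0 D E W
  have a2 := CH_prop_le h0 hq.sum_one E W
  have a3 := CH_le_vec h0 hq.sum_one D (fun ω => (E ω, W ω))
    (fun ω => if E ω then L else 2 * Q) (by
      intro ω ω' b1 b2 h i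
      simp only [Prod.mk.injEq] at h
      obtain ⟨h3, h4⟩ := h
      by_cases hE : E ω
      · rw [if_pos hE]
        exact h1 ω ω' b1 b2 hE (h3 ▸ hE) h4 i
      · rw [if_neg hE]
        push_cast
        have e1 := h2 ω b1 i
        have e2 := h2 ω' b2 i
        have e3 := abs_sub (D ω i : ℝ) (D ω' i : ℝ)
        linarith)
  have a4 : Ex q (fun ω => Real.log (2 * (if E ω then L else 2 * Q) + 1)) ≤
      Real.log (2 * L + 1) + Pb q (fun ω => ¬ E ω) * Real.log (4 * Q + 1) := by
    have b1 : Pb q (fun ω => ¬ E ω) * Real.log (4 * Q + 1) =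
        Ex q (fun ω => if ¬ E ω then Real.log (4 * Q + 1) else 0) := by
      unfold Pb Ex
      rw [Finset.sum_mul]
      refine Finset.sum_congr rfl fun ω _ => ?_
      by_cases hE : E ω
      · simp [hE]
      · simp [hE]
    have b2 : Real.log (2 * L + 1) = Ex q (fun _ => Real.log (2 * L + 1)) := by
      rw [Ex_const hq.sum_one]
    rw [b1, b2, ← Ex_add]
    refine Ex_mono h0 fun ω _ => ?_
    by_cases hE : E ω
    · simp only [hE, if_true, not_true_eq_false, if_false, add_zero, le_refl]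
    · simp only [hE, if_false, not_false_eq_true, if_true]
      have e1 : 0 ≤ Real.log (2 * L + 1) := Real.log_nonneg (by linarith)
      have e2 : (2 : ℝ) * (2 * Q) + 1 = 4 * Q + 1 := by ring
      rw [e2]
      linarith
  have a5 : (d : ℝ) * Ex q (fun ω => Real.log (2 * (if E ω then L else 2 * Q) + 1)) ≤
      d * (Real.log (2 * L + 1) + Pb q (fun ω => ¬ E ω) * Real.log (4 * Q + 1)) :=
    mul_le_mul_of_nonneg_left a4 (Nat.cast_nonneg d)
  linarith

end Pool.P4N
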