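import Pool.Agent.H14.P4.Stm
import Pool.Agent.H98.P4.Few
import Pool.Agent.H98.QW.SelE

/-!
# Digits of the picture (P4)
-/

set_option autoImplicit false

namespace Pool.P4N

open Finset Real
open Pool.Agent.H49.Ent Pool.Agent.H32.Dense Pool.STK Pool.STAT Pool.MIC Pool.P4
open Pool.BFL (Pb)

/-! ### Truncated digits -/

theorem cl1_eq {x : ℝ} (h : |x| ≤ 1) : cl1 x = x := by
  obtain ⟨h1, h2⟩ := abs_le.1 h
  unfold cl1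
  rw [min_eq_right h2, max_eq_right h1]

theorem cl1_bd (x : ℝ) : -1 ≤ cl1 x ∧ cl1 x ≤ 1 := by
  unfold cl1
  exact ⟨le_max_left _ _, max_le (by norm_num) (min_le_left _ _)⟩

theorem fl_sub (x y : ℝ) : |((⌊x⌋ - ⌊y⌋ : ℤ) : ℝ)| ≤ |x - y| + 1 := by
  push_cast
  have h1 := Int.floor_le x
  have h2 := Int.lt_floor_add_one x
  have h3 := Int.floor_le y
  have h4 := Int.lt_floor_add_one y
  have h5 := abs_le.1 (le_refl |x - y|)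
  rw [abs_le]
  constructor <;> linarith [h5.1, h5.2]

theorem fl_eq {x y : ℝ} (h : ⌊x⌋ = ⌊y⌋) : |x - y| ≤ 1 := by
  have h1 := Int.floor_le x
  have h2 := Int.lt_floor_add_one x
  have h3 := Int.floor_le y
  have h4 := Int.lt_floor_add_one y
  rw [h] at h1 h2
  rw [abs_le]
  constructor <;> linarith

theorem dg_bd (X : ℕ) (x : ℝ) : |(dg X x : ℝ)| ≤ 2 ^ X := by
  obtain ⟨h1, h2⟩ := cl1_bd x
  have hp : (0 : ℝ) < 2 ^ X := by positivity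
  have h3 : (2 : ℝ) ^ X * cl1 x ≤ 2 ^ X := by nlinarith
  have h4 : -(2 : ℝ) ^ X ≤ 2 ^ X * cl1 x := by nlinarith
  unfold dg
  rw [abs_le]
  constructor
  · have : (-(2 : ℤ) ^ X) ≤ ⌊(2 : ℝ) ^ X * cl1 x⌋ := by
      rw [Int.le_floor]
      push_cast
      exact h4
    have h5 : ((-(2 : ℤ) ^ X : ℤ) : ℝ) ≤ (⌊(2 : ℝ) ^ X * cl1 x⌋ : ℝ) := by exact_mod_cast this
    push_cast at h5
    exact h5
  · exact (Int.floor_le _).trans h3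

theorem dg_eq {X : ℕ} {x x' : ℝ} (hx : |x| ≤ 1) (hx' : |x'| ≤ 1) (h : dg X x = dg X x') :
    |x - x'| ≤ ((2 : ℝ) ^ X)⁻¹ := by
  have hp : (0 : ℝ) < 2 ^ X := by positivity
  unfold dg at h
  have h1 := fl_eq h
  rw [cl1_eq hx, cl1_eq hx', ← mul_sub, abs_mul, abs_of_pos hp] at h1
  rw [← one_div, le_div_iff₀ hp]
  linarith

theorem dg_sub {X : ℕ} {x x' : ℝ} (hx : |x| ≤ 1) (hx' : |x'| ≤ 1) :
    |((dg X x - dg X x' : ℤ) : ℝ)| ≤ 2 ^ X * |x - x'| + 1 := by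
  have hp : (0 : ℝ) < 2 ^ X := by positivity
  unfold dg
  refine (fl_sub _ _).trans (le_of_eq ?_)
  rw [cl1_eq hx, cl1_eq hx', ← mul_sub, abs_mul, abs_of_pos hp]

theorem dgp_mem {X : ℕ} {x : ℝ} (h0 : 0 ≤ x) (h1 : x ≤ 1) :
    (dgp X x : ℝ) ≤ 2 ^ X * x ∧ 2 ^ X * x ≤ dgp X x + 1 := by
  have hp : (0 : ℝ) < 2 ^ X := by positivity
  have a1 := Int.floor_le ((2 : ℝ) ^ X * x)
  have a2 := Int.lt_floor_add_one ((2 : ℝ) ^ X * x)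
  have a3 : 0 ≤ ⌊(2 : ℝ) ^ X * x⌋ := Int.floor_nonneg.2 (by positivity)
  have a4 : ⌊(2 : ℝ) ^ X * x⌋ ≤ 2 ^ X := by
    have : ((⌊(2 : ℝ) ^ X * x⌋ : ℤ) : ℝ) ≤ ((2 ^ X : ℤ) : ℝ) := by
      push_cast
      nlinarith
    exact_mod_cast this
  unfold dgp
  rcases lt_or_ge ⌊(2 : ℝ) ^ X * x⌋ ((2 : ℤ) ^ X) with h | h
  · rw [min_eq_right (by omega), max_eq_right a3]
    exact ⟨a1, a2.le⟩
  · have e : ⌊(2 : ℝ) ^ X * x⌋ = 2 ^ X := le_antisymm a4 h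
    have e1 : (0 : ℤ) ≤ 2 ^ X - 1 := by
      have : (0 : ℤ) < 2 ^ X := by positivity
      omega
    rw [e, min_eq_left (by omega), max_eq_right e1]
    rw [e] at a1
    push_cast at a1 ⊢
    constructor <;> nlinarith

theorem dgp_eq {X : ℕ} {x x' : ℝ} (h0 : 0 ≤ x) (h1 : x ≤ 1) (h0' : 0 ≤ x') (h1' : x' ≤ 1)
    (h : dgp X x = dgp X x') : |x - x'| ≤ ((2 : ℝ) ^ X)⁻¹ := by
  have hp : (0 : ℝ) < 2 ^ X := by positivity
  obtain ⟨a1, a2⟩ := dgp_mem (X := X) h0 h1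
  obtain ⟨b1, b2⟩ := dgp_mem (X := X) h0' h1'
  rw [h] at a1 a2
  rw [← one_div, le_div_iff₀ hp]
  have : |x - x'| * 2 ^ X = |(2 : ℝ) ^ X * x - 2 ^ X * x'| := by
    rw [← mul_sub, abs_mul, abs_of_pos hp]
    ring
  rw [this, abs_le]
  constructor <;> linarith

/-! ### The relative time -/

theorem rt_bd {D : NDat2} {J w : ℕ} (hw : w ≤ J) {ω : D.Ω}
    (hX : D.X ω 0 = (D.T ω : ℝ) / 2 ^ J) : 0 ≤ rt D J w ω ∧ rt D J w ω ≤ 1 := by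
  have hp : (0 : ℝ) < 2 ^ J := by positivity
  have e1 : rt D J w ω = 2 ^ w * (((D.T ω % 2 ^ (J - w) : ℕ) : ℝ) / 2 ^ J) := by
    unfold rt t0
    rw [hX, ← sub_div]
    congr 2
    have h1 : 2 ^ (J - w) * (D.T ω / 2 ^ (J - w)) + D.T ω % 2 ^ (J - w) = D.T ω :=
      Nat.div_add_mod _ _
    have h2 : ((2 ^ (J - w) * (D.T ω / 2 ^ (J - w)) + D.T ω % 2 ^ (J - w) : ℕ) : ℝ) = D.T ω := by
      rw [h1]
    push_cast at h2 ⊢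
    linarith
  rw [e1]
  refine ⟨by positivity, ?_⟩
  have h3 : D.T ω % 2 ^ (J - w) < 2 ^ (J - w) := Nat.mod_lt _ (by positivity)
  have h4 : ((D.T ω % 2 ^ (J - w) : ℕ) : ℝ) ≤ 2 ^ (J - w) := by exact_mod_cast h3.le
  have h5 : (2 : ℝ) ^ w * (2 ^ (J - w) / 2 ^ J) = 1 := by
    rw [← mul_div_assoc, ← pow_add, Nat.add_sub_cancel' hw, div_self hp.ne']
  calc (2 : ℝ) ^ w * (((D.T ω % 2 ^ (J - w) : ℕ) : ℝ) / 2 ^ J) ≤ 2 ^ w * (2 ^ (J - w) / 2 ^ J) := by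
        gcongr
    _ = 1 := h5

theorem rt_T {D : NDat2} {J w : ℕ} {ω ω' : D.Ω} (hX : D.X ω 0 = (D.T ω : ℝ) / 2 ^ J)
    (hX' : D.X ω' 0 = (D.T ω' : ℝ) / 2 ^ J) (h : D.T ω = D.T ω') :
    rt D J w ω = rt D J w ω' := by
  unfold rt t0
  rw [hX, hX', h]

end Pool.P4N
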