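import Pool.Agent.H98.P4.NFvB
import Pool.Agent.H89.P4.Hs
import Pool.Agent.H98.QW.NfbH

/-!
# The target is not full, over the visible chart (P4; the field `nf` of `VCh`)
-/

set_option autoImplicit false

namespace Pool.P4N

open Finset Real
open Pool.Agent.H49.Ent Pool.Agent.H32.Dense Pool.STK Pool.STAT Pool.MIC Pool.P4
open Pool.MIC.Frm
open Pool.QC (nfb)
open Pool.BFL (Pb)

section

variable {D : NDat2} {n K K' J a₀ w₀ z M w i j r r' r'' y X : ℕ} {lam gam : ℕ → ℝ}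
  {κ C₁ C : ℝ} {q : D.Ω → ℝ} {E : D.Ω → Prop} {P : D.Γ × D.Γ → ℕ → PN}
  {S : D.Ω → ℕ → ℕ → ℝ} {c k : ℕ} {ys : Fin k → ℕ} {gs : Fin c → ℕ}
  {Sg σ : Type} {s : D.Ω → Sg} {zd : D.Ω → ℕ → ℝ} {Cd A₀ : ℝ}
  {N : D.Ω → Fin c → ℤ} {Y : D.Ω → Fin k → ℤ} {Sv : D.Ω → σ}
  (H : Hyp D n K K' J a₀ w₀ z M w i j r r' r'' y X lam gam κ C₁ C q E P S ys gs)
  (G : DchX D n z i j r X Cd q E P s zd) (V : VisD D z X Cd A₀ q E ys gs s zd N Y Sv)
  (hCd : 0 ≤ Cd)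

include H G V hCd

/-- **The group without the target is full below every depth, given the visible data.** -/
theorem hs_vis (hA : 0 ≤ A₀) {n₀ : Fin c} (hn : gs n₀ = n) {x : ℕ} (hx : x ≤ X) :
    ((c : ℝ) - 1) * (((X : ℝ) - x) * Real.log 2) -
      (C * z + Real.log 2 + (aE c (5 + C + A₀) + aE k (3 + C + A₀) +
        aE (n - 1) (3 + 2 * C₁ + C + 3 * Cd)) * (z + X * Pb q (fun ω => ¬ E ω))) ≤
      CH q (fun ω (u : {u : Fin c // u ≠ n₀}) => N ω u)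
        (fun ω => ((fun u => N ω u / 2 ^ (X - x)), (Y ω, Sv ω))) := by
  classical
  have hq := H.ok.isLaw
  have h0 := hq.nonneg
  obtain ⟨ρ, hρ⟩ : ∃ ρ : ℝ, ρ = z + X * Pb q (fun ω => ¬ E ω) := ⟨_, rfl⟩
  rw [← hρ]
  -- the deeper place
  have z1 := H.z1
  obtain ⟨x₀, hX, hxM⟩ := H.Xz
  obtain ⟨v, hv⟩ : ∃ v, v = x / z := ⟨_, rfl⟩
  have hv1 : v * z ≤ x := by
    rw [hv]
    exact Nat.div_mul_le_self _ _
  have hv2 : x < v * z + z := by
    rw [hv]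
    exact Nat.lt_div_mul_add (by omega)
  have hv3 : v ≤ x₀ := by
    have h1 : v * z ≤ x₀ * z := by
      rw [← hX]
      omega
    exact Nat.le_of_mul_le_mul_right h1 (by omega)
  obtain ⟨U, hU⟩ : ∃ U, x₀ = v + U := ⟨x₀ - v, by omega⟩
  have hUX : (v + U) * z = X := by rw [hX, hU]
  have hUX' : X - v * z = U * z := by
    rw [← hUX, Nat.add_mul]
    omega
  have hM : i + v + r'' < M := by omega
  have j1 := H.j1
  have j2 := H.j2
  -- the variables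
  obtain ⟨Z, hZ⟩ : ∃ Z : D.Ω → Prop × (D.Γ × (D.Γ × ℕ)), Z = fun ω =>
    (E ω, (D.c (i - 1) (j - r) ω, (D.c (i + v) j ω, D.T ω))) := ⟨_, rfl⟩
  obtain ⟨N', hN'⟩ : ∃ N' : D.Ω → {u : Fin c // u ≠ n₀} → ℤ, N' =
    fun ω (u : {u : Fin c // u ≠ n₀}) => N ω u := ⟨_, rfl⟩
  obtain ⟨F, hF⟩ : ∃ F : D.Ω → Fin c → ℤ, F = fun ω u => N ω u / 2 ^ (X - x) := ⟨_, rfl⟩
  have eZ : ∀ ω ω', 0 < q ω → 0 < q ω' → Z ω = Z ω' → Sv ω = Sv ω' := by
    intro ω ω' hω hω' e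
    rw [hZ] at e
    obtain ⟨f1, f2, f3⟩ := H.up (i' := i + v) (by omega) hM hω hω' (Prod.ext_iff.mp e).2
    exact V.Sd ω ω' hω hω' (Prod.ext (Prod.ext_iff.mp e).1 (G.bs ω ω' hω hω' f1 f3))
  have m1 : CH q N' (fun ω => (F ω, (Y ω, Z ω))) ≤ CH q N' (fun ω => (F ω, (Y ω, Sv ω))) := by
    refine CH_mono_cond h0 fun ω ω' hω hω' e => ?_
    have e1 := (Prod.ext_iff.mp e).1
    have e2 := (Prod.ext_iff.mp e).2
    exact Prod.ext e1 (Prod.ext (Prod.ext_iff.mp e2).1 (eZ ω ω' hω hω' (Prod.ext_iff.mp e2).2))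
  have m2 := CH_le_add h0 N' F (fun ω => (Y ω, Z ω))
  have m3 : CH q F (fun ω => (Y ω, Z ω)) ≤ aE c (5 + C + A₀) * ρ := by
    have h1 := few1v H G V hCd hA hx hv1 hv2 hM (fun ω => (Y ω, E ω))
    rw [← hF, ← hρ] at h1
    refine le_trans (CH_mono_cond h0 fun ω ω' hω hω' e => ?_) h1
    have e3 := (Prod.ext_iff.mp e).1
    have e4 := (Prod.ext_iff.mp e).2
    simp only at e4
    rw [hZ] at e4
    exact Prod.ext (Prod.ext e3 (Prod.ext_iff.mp e4).1) (Prod.ext_iff.mp e4).2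
  have m4 := CH_chain h0 Y N' Z
  have m4' := CH_chain h0 N' Y Z
  have m5 : CH q Y Z ≤ k * (((U * z : ℕ) : ℝ) * Real.log 2) + aE k (3 + C + A₀) * ρ := by
    have h1 := few8v H G V hCd hA (v := v) (hv1.trans hx) hM E
    rw [hUX', ← hρ, ← hZ] at h1
    exact h1
  have m6 := CH_le_add h0 (D.vd n (i + v) j (U * z)) (fun ω => (Y ω, N' ω)) Z
  have m7 : CH q (D.vd n (i + v) j (U * z)) (fun ω => ((Y ω, N' ω), Z ω)) ≤
      aE (n - 1) (3 + 2 * C₁ + C + 3 * Cd) * ρ := by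
    have h1 := few6v H G V hCd hUX hM hn E
    rw [← hρ] at h1
    refine le_trans (CH_mono_cond h0 fun ω ω' hω hω' e => ?_) h1
    have e1 := (Prod.ext_iff.mp e).1
    have e2 : Z ω = Z ω' := (Prod.ext_iff.mp e).2
    rw [hZ] at e2
    have e3 : N' ω = N' ω' := (Prod.ext_iff.mp e1).2
    rw [hN'] at e3
    exact Prod.ext (Prod.ext_iff.mp e1).1 (Prod.ext e3 e2)
  have m8 : ((n - 1 : ℕ) : ℝ) * (U * z) * Real.log 2 - C * z ≤
      CH q (D.vd n (i + v) j (U * z))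
        (fun ω => (D.c (i - 1) (j - r) ω, (D.c (i + v) j ω, D.T ω))) := by
    have i0 := H.i0
    have hUr : U * r ≤ x₀ * r := Nat.mul_le_mul_right r (by omega)
    have hXr := H.Xr x₀ hX
    have h1 := H.llc (i + v) j r U (by omega) j1 (by omega) (by omega)
    refine h1.trans (CH_mono_cond h0 fun ω ω' hω hω' e => ?_)
    have e1 := (Prod.ext_iff.mp e).1
    have e2 := (Prod.ext_iff.mp e).2
    have h2 := c_up H.ok (j := j - r) (by omega) (i - 1) v (by omega)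
    rw [show i - 1 + v = i + v - 1 by omega] at h2
    exact Prod.ext (h2 ω ω' hω hω' e1) e2
  have m9 := CH_le_add h0 (D.vd n (i + v) j (U * z)) E
    (fun ω => (D.c (i - 1) (j - r) ω, (D.c (i + v) j ω, D.T ω)))
  have m10 := CH_prop_le h0 hq.sum_one E
    (fun ω => (D.c (i - 1) (j - r) ω, (D.c (i + v) j ω, D.T ω)))
  have m11 : CH q (D.vd n (i + v) j (U * z))
      (fun ω => (E ω, (D.c (i - 1) (j - r) ω, (D.c (i + v) j ω, D.T ω)))) =
      CH q (D.vd n (i + v) j (U * z)) Z := by rw [hZ]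
  have m12 : CH q (fun ω => (Y ω, N' ω)) Z ≤ CH q (fun ω => (N' ω, Y ω)) Z := by
    refine CH_mono_left h0 ?_
    intro ω ω' _ _ e
    simp only [Prod.mk.injEq] at e ⊢
    exact ⟨e.1.2, e.1.1⟩
  -- the sum
  have hkc := count_kc H.ys_sl H.ys_in H.ys_on H.gs_gr H.gs_in.injective H.gs_on
  have c1 : 1 ≤ c := by
    have := n₀.2
    omega
  have n1 : ((n - 1 : ℕ) : ℝ) = k + (c - 1) := by
    have : n - 1 = k + (c - 1) := by omega
    rw [this]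
    push_cast [Nat.cast_sub c1]
    ring
  rw [n1] at m8
  have l2 : 0 ≤ Real.log 2 := Real.log_nonneg (by norm_num)
  have c1' : (1 : ℝ) ≤ c := by exact_mod_cast c1
  have hUz : ((U * z : ℕ) : ℝ) = X - v * z := by
    rw [← hUX']
    rw [Nat.cast_sub (hv1.trans hx)]
    push_cast
    ring
  have hxx : (X : ℝ) - x ≤ ((U * z : ℕ) : ℝ) := by
    rw [hUz]
    have : ((v * z : ℕ) : ℝ) ≤ x := by exact_mod_cast hv1
    push_cast at this
    linarith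
  have m20 : ((c : ℝ) - 1) * (((X : ℝ) - x) * Real.log 2) ≤
      ((c : ℝ) - 1) * (((U * z : ℕ) : ℝ) * Real.log 2) :=
    mul_le_mul_of_nonneg_left (mul_le_mul_of_nonneg_right hxx l2) (by linarith)
  have m21 : (k + ((c : ℝ) - 1)) * (U * z) * Real.log 2 =
      k * ((U * z : ℕ) * Real.log 2) + ((c : ℝ) - 1) * (((U * z : ℕ) : ℝ) * Real.log 2) := by
    push_cast
    ring
  rw [m21] at m8
  have goal1 : ((c : ℝ) - 1) * (((X : ℝ) - x) * Real.log 2) -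
      (C * z + Real.log 2 + (aE c (5 + C + A₀) + aE k (3 + C + A₀) +
        aE (n - 1) (3 + 2 * C₁ + C + 3 * Cd)) * ρ) ≤
      CH q N' (fun ω => (F ω, (Y ω, Sv ω))) := by
    linarith
  rw [hN', hF] at goal1
  exact goal1

end

/-- **(NF), visible.** The target is not full, given the rest of the visible near point and the
visible record. -/
theorem nf_vis {D : NDat2} {n K K' J a₀ w₀ z M w i j r r' r'' y U B : ℕ} {lam gam : ℕ → ℝ}
    {κ C₁ C h ϖ : ℝ} {q : D.Ω → ℝ} {E : D.Ω → Prop} {P : D.Γ × D.Γ → ℕ → PN}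
    {S : D.Ω → ℕ → ℕ → ℝ} {c k : ℕ} {ys : Fin k → ℕ} {gs : Fin c → ℕ}
    {Sg σ : Type} {s : D.Ω → Sg} {zd : D.Ω → ℕ → ℝ} {Cd A₀ : ℝ}
    {N : D.Ω → Fin c → ℤ} {Y : D.Ω → Fin k → ℤ} {Sv : D.Ω → σ}
    (H : Hyp D n K K' J a₀ w₀ z M w i j r r' r'' y (B * U * z) lam gam κ C₁ C q E P S ys gs)
    (G : DchX D n z i j r (B * U * z) Cd q E P s zd)
    (V : VisD D z (B * U * z) Cd A₀ q E ys gs s zd N Y Sv)
    (hCd : 0 ≤ Cd) (hA : 0 ≤ A₀) (hNF : D.NF n z M B gam h C₁ ϖ q) (hB : 1 ≤ B)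
    (hϖ : ϖ ≤ 1) {n₀ : Fin c} (hn : gs n₀ = n) (hU : i + U ≤ M)
    (hU' : (U : ℝ) ≤ gam n * (M - j)) :
    CH q (fun ω => N ω n₀)
      (fun ω => ((fun u : {u : Fin c // u ≠ n₀} => N ω u), (Y ω, Sv ω))) ≤
      (1 - h / B) * (B * U * z : ℕ) * Real.log 2 + (C₁ * z + 2 + (aE (n - 1) (3 + 3 * Cd) +
        aE 1 (2 + 2 * Cd + A₀)) * (z + (B * U * z : ℕ) * Pb q (fun ω => ¬ E ω))) := by
  classical
  obtain ⟨X, hX⟩ : ∃ X, X = B * U * z := ⟨_, rfl⟩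
  rw [← hX] at H G V ⊢
  have hp := H.ok.isLaw
  have h0 := hp.nonneg
  have hl0 : 0 < Real.log 2 := Real.log_pos (by norm_num)
  have hl : Real.log 2 < 0.6931471808 := Real.log_two_lt_d9
  have hiM : i ≤ M := by have := H.i2; omega
  have hjM : j ≤ M := by have := H.j2; omega
  have hUX : U * z ≤ X := by
    rw [hX]
    calc U * z = 1 * (U * z) := (one_mul _).symm
      _ ≤ B * (U * z) := Nat.mul_le_mul_right _ hB
      _ = B * U * z := (mul_assoc _ _ _).symm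
  obtain ⟨W, hW⟩ : ∃ W : D.Ω → ({u : Fin c // u ≠ n₀} → ℤ) × ((Fin k → ℤ) × σ), W = fun ω =>
      ((fun u : {u : Fin c // u ≠ n₀} => N ω u), (Y ω, Sv ω)) := ⟨_, rfl⟩
  have a1 := CH_le_add h0 (fun ω => N ω n₀) (D.nd n i j X) W
  have a2 := CH_le_add h0 (D.nd n i j X) (D.vd n i j X) W
  have a3 : CH q (D.nd n i j X) (fun ω => (D.vd n i j X ω, W ω)) ≤
      CH q (D.nd n i j X) (fun ω => (D.vd n i j X ω, (D.s i j ω, D.T ω))) := by
    refine CH_mono_cond h0 ?_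
    intro ω ω' g1 g2 e
    have e1 := (Prod.ext_iff.mp e).1
    have e2 : W ω = W ω' := (Prod.ext_iff.mp e).2
    rw [hW] at e2
    have e3 : Sv ω = Sv ω' := (Prod.ext_iff.mp (Prod.ext_iff.mp e2).2).2
    obtain ⟨t1, t2⟩ := G.sT ω ω' g1 g2 (V.dS ω ω' g1 g2 e3)
    exact Prod.ext e1 (Prod.ext t2 t1)
  have a4 := CH_le_add h0 (D.nd n i j X) (D.nd n i j (U * z))
    (fun ω => (D.vd n i j X ω, (D.s i j ω, D.T ω)))
  have a5 : CH q (D.nd n i j X) (fun ω => (D.nd n i j (U * z) ω,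
      (D.vd n i j X ω, (D.s i j ω, D.T ω)))) ≤ ((X - U * z : ℕ) : ℝ) * Real.log 2 := by
    have e1 := CH_one_low hp (D.nd n i j X) (X - U * z)
      (fun ω => (D.vd n i j X ω, (D.s i j ω, D.T ω)))
    have e2 : (fun ω => (D.nd n i j X ω / 2 ^ (X - U * z),
        (D.vd n i j X ω, (D.s i j ω, D.T ω)))) = (fun ω => (D.nd n i j (U * z) ω,
        (D.vd n i j X ω, (D.s i j ω, D.T ω)))) := by
      funext ω
      have e3 := nd_div D n i j (U * z) (X - U * z) ω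
      rw [Nat.add_sub_cancel' hUX] at e3
      rw [e3]
    rw [e2] at e1
    exact e1
  have a6 := CH_le_add h0 (D.nd n i j (U * z)) (D.nd n i j 0)
    (fun ω => (D.vd n i j X ω, (D.s i j ω, D.T ω)))
  have a7 : CH q (D.nd n i j (U * z)) (fun ω => (D.nd n i j 0 ω,
      (D.vd n i j X ω, (D.s i j ω, D.T ω)))) ≤ (1 - h) * (U * z) * Real.log 2 + C₁ * z := by
    have e1 := hNF i hiM j hjM 0 U (by omega) (by push_cast; linarith) (fun _ => True) (by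
      have : Pb q (fun _ : D.Ω => True) = 1 := by
        unfold Pb
        simp only [if_true]
        exact hp.sum_one
      rw [this]
      exact hϖ)
    rw [cond_true hp] at e1
    simp only [zero_add, zero_mul] at e1
    have e2 : B * (U * z) = X := by rw [hX, mul_assoc]
    rw [e2] at e1
    exact e1
  have a8 : CH q (D.nd n i j 0) (fun ω => (D.vd n i j X ω, (D.s i j ω, D.T ω))) ≤ 2 := by
    have e1 := CH_le_card h0 hp.sum_one (D.nd n i j 0)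
      (fun ω => (D.vd n i j X ω, (D.s i j ω, D.T ω))) (fun _ => Finset.Icc (-1 : ℤ) 1)
      (fun ω hω => by
        have e2 := sh_bd (H.ok.pos i hiM j hjM ω hω n H.n1 le_rfl) 0
        unfold NDat2.nd
        rw [pow_zero] at e2
        have e3 := abs_le.1 e2
        rw [Finset.mem_Icc]
        constructor
        · exact_mod_cast e3.1
        · exact_mod_cast e3.2)
    refine e1.trans ?_
    rw [Ex_const hp.sum_one]
    have e4 : (Finset.Icc (-1 : ℤ) 1).card = 3 := by decide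
    rw [e4]
    have e5 : Real.log ((3 : ℕ) : ℝ) ≤ Real.log (2 ^ 2) :=
      Real.log_le_log (by norm_num) (by norm_num)
    rw [Real.log_pow] at e5
    push_cast at e5 ⊢
    linarith
  have b1 : CH q (D.vd n i j X) W ≤
      aE (n - 1) (3 + 3 * Cd) * (z + X * Pb q (fun ω => ¬ E ω)) := by
    rw [hW]
    exact few_vdD H G V hCd hn hiM hjM
  have b2 : CH q (fun ω => N ω n₀) (fun ω => (D.nd n i j X ω, W ω)) ≤
      aE 1 (2 + 2 * Cd + A₀) * (z + X * Pb q (fun ω => ¬ E ω)) := by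
    rw [hW]
    exact few_nuD H G V hCd hA hn
  have hsub : ((X - U * z : ℕ) : ℝ) = X - U * z := by
    rw [Nat.cast_sub hUX]
    push_cast
    ring
  rw [hsub] at a5
  have hBr : (1 : ℝ) ≤ B := by exact_mod_cast hB
  have hXr : (X : ℝ) = B * (U * z) := by
    rw [hX]
    push_cast
    ring
  have hmain : (1 - h) * (U * z) * Real.log 2 + ((X : ℝ) - U * z) * Real.log 2 =
      (1 - h / B) * (X : ℝ) * Real.log 2 := by
    rw [hXr]
    field_simp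
    ring
  have goal : CH q (fun ω => N ω n₀) W ≤ (1 - h / B) * (X : ℝ) * Real.log 2 +
      (C₁ * z + 2 + (aE (n - 1) (3 + 3 * Cd) +
        aE 1 (2 + 2 * Cd + A₀)) * (z + X * Pb q (fun ω => ¬ E ω))) := by
    linarith
  rw [hW] at goal
  exact goal

/-- **(NFv)** The field `nf` of the visible chart. -/
theorem nfv (n K K' c k B B' : ℕ) (C₁ C Cd A₀ : ℝ) (hB : 1 ≤ B) (hB' : 0 < B') (hCd : 0 ≤ Cd)
    (hA : 0 ≤ A₀) : ∃ A : ℝ, 0 ≤ A ∧
    ∀ (D : NDat2) (J a₀ w₀ z M w i j r r' r'' y U : ℕ) (lam gam : ℕ → ℝ) (κ h ϖ : ℝ)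
      (q : D.Ω → ℝ) (E : D.Ω → Prop) (P : D.Γ × D.Γ → ℕ → PN) (S : D.Ω → ℕ → ℕ → ℝ)
      (ys : Fin k → ℕ) (gs : Fin c → ℕ) (n₀ : Fin c) {Sg σ : Type} (s : D.Ω → Sg)
      (zd : D.Ω → ℕ → ℝ) (N : D.Ω → Fin c → ℤ) (Y : D.Ω → Fin k → ℤ) (Sv : D.Ω → σ),
      Hyp D n K K' J a₀ w₀ z M w i j r r' r'' y (B * U * z) lam gam κ C₁ C q E P S ys gs →
      DchX D n z i j r (B * U * z) Cd q E P s zd →
      VisD D z (B * U * z) Cd A₀ q E ys gs s zd N Y Sv →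
      D.NF n z M B gam h C₁ ϖ q → ϖ ≤ 1 → gs n₀ = n → i + U ≤ M →
      (U : ℝ) ≤ gam n * (M - j) →
      nfb q N (fun ω => (Y ω, Sv ω)) n₀ (B * U * z) B' ≤
        (1 - h / B) * (B * U * z : ℕ) * Real.log 2 +
          err A κ z (B * U * z) (Pb q (fun ω => ¬ E ω)) := by
  obtain ⟨A1, hA1⟩ : ∃ A, A = aE c (5 + |C| + A₀) + aE k (3 + |C| + A₀) +
    aE (n - 1) (3 + 2 * |C₁| + |C| + 3 * Cd) := ⟨_, rfl⟩
  obtain ⟨A2, hA2⟩ : ∃ A, A = aE (n - 1) (3 + 3 * Cd) + aE 1 (2 + 2 * Cd + A₀) := ⟨_, rfl⟩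
  have b1 : 0 ≤ A1 := by
    rw [hA1]
    have h1 := aE_nonneg c (A := 5 + |C| + A₀) (by positivity)
    have h2 := aE_nonneg k (A := 3 + |C| + A₀) (by positivity)
    have h3 := aE_nonneg (n - 1) (A := 3 + 2 * |C₁| + |C| + 3 * Cd) (by positivity)
    positivity
  have b2 : 0 ≤ A2 := by
    rw [hA2]
    have h1 := aE_nonneg (n - 1) (A := 3 + 3 * Cd) (by positivity)
    have h2 := aE_nonneg 1 (A := 2 + 2 * Cd + A₀) (by positivity)
    positivity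
  refine ⟨|C₁| + 2 + A2 + B' * (|C| + 1 + A1), by positivity, ?_⟩
  intro D J a₀ w₀ z M w i j r r' r'' y U lam gam κ h ϖ q E P S ys gs n₀ Sg σ s zd N Y Sv H G V
    hNF hϖ hn hU hU'
  have a1 := nf_vis H G V hCd hA hNF hB hϖ hn hU hU'
  obtain ⟨X, hX⟩ : ∃ X, X = B * U * z := ⟨_, rfl⟩
  rw [← hX] at H G V a1 ⊢
  have C0 : 0 ≤ C := by linarith [H.Cg]
  have C10 : 0 ≤ C₁ := by linarith [H.C1]
  rw [abs_of_nonneg C0, abs_of_nonneg C10] at hA1
  rw [abs_of_nonneg C10, abs_of_nonneg C0]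
  have a2 := Pool.QC98.nfb_of_hs H.ok.isLaw N (fun ω => (Y ω, Sv ω)) n₀ (X := X) (B := B') hB'
    (fun d hd => hs_vis H G V hCd hA hn hd)
  rw [← hA1] at a2
  rw [← hA2] at a1
  obtain ⟨b, hb⟩ : ∃ b, b = Pb q (fun ω => ¬ E ω) := ⟨_, rfl⟩
  have hb0 : 0 ≤ b := by
    rw [hb]
    exact H.b0
  rw [← hb] at a1 a2 ⊢
  have z1 : (1 : ℝ) ≤ z := by exact_mod_cast H.z1
  have κ0 := H.κ0
  have x0 : (0 : ℝ) ≤ X := Nat.cast_nonneg X
  have xb : 0 ≤ (X : ℝ) * b := mul_nonneg x0 hb0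
  have κz : 0 ≤ κ * z := mul_nonneg κ0 (by linarith)
  have B0 : (0 : ℝ) ≤ B' := Nat.cast_nonneg B'
  have hl : Real.log 2 < 0.6931471808 := Real.log_two_lt_d9
  unfold err
  have c1 : C * z + Real.log 2 + A1 * (z + X * b) ≤ (C + 1 + A1) * ((1 + κ) * z + X * b) := by
    have h1 : 0 ≤ A1 * (κ * z) := mul_nonneg b1 κz
    have h2 : 0 ≤ C * (κ * z) := mul_nonneg C0 κz
    have h3 : 0 ≤ C * (X * b) := mul_nonneg C0 xb
    nlinarith only [h1, h2, h3, κz, xb, z1, hl]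
  have c2 := mul_le_mul_of_nonneg_left c1 B0
  have c3 : C₁ * z + 2 + A2 * (z + X * b) ≤ (C₁ + 2 + A2) * ((1 + κ) * z + X * b) := by
    have h1 : 0 ≤ A2 * (κ * z) := mul_nonneg b2 κz
    have h2 : 0 ≤ C₁ * (κ * z) := mul_nonneg C10 κz
    have h3 : 0 ≤ C₁ * (X * b) := mul_nonneg C10 xb
    nlinarith only [h1, h2, h3, κz, xb, z1]
  linarith only [a1, a2, c2, c3]

end Pool.P4N
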