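import Pool.Agent.H89.P4.Hs2
import Pool.Agent.H98.P4.NF
import Pool.Agent.H98.P4.Dch

/-!
# The visible digits (P4): determinism

`VisD`: the visible digits `N, Y` (over the visible frame on the event `E`) and the visible record
`Sv`. The lemmas: what equal digits give, and what equal deeper contexts give.
-/

set_option autoImplicit false

namespace Pool.P4N

open Finset Real
open Pool.Agent.H49.Ent Pool.Agent.H32.Dense Pool.STK Pool.STAT Pool.MIC Pool.P4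
open Pool.MIC.Frm
open Pool.BFL (Pb)

/-- The digits and the record of the visible chart. -/
structure VisD (D : NDat2) (z X : ℕ) (Cd A₀ : ℝ) (q : D.Ω → ℝ) (E : D.Ω → Prop) {c k : ℕ}
    (ys : Fin k → ℕ) (gs : Fin c → ℕ) {Sg σ : Type} (s : D.Ω → Sg) (zd : D.Ω → ℕ → ℝ)
    (N : D.Ω → Fin c → ℤ) (Y : D.Ω → Fin k → ℤ) (Sv : D.Ω → σ) : Prop where
  nN : ∀ ω, 0 < q ω → E ω → N ω = nuD z X Cd zd gs ω
  yY : ∀ ω, 0 < q ω → E ω → Y ω = yD z X Cd zd ys ω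
  nB : ∀ ω, 0 < q ω → ∀ u, |(N ω u : ℝ)| ≤ exp (A₀ * (z + X))
  yB : ∀ ω, 0 < q ω → ∀ a, |(Y ω a : ℝ)| ≤ exp (A₀ * (z + X))
  dS : Det q Sv s
  Sd : Det q (fun ω => (E ω, s ω)) Sv

/-- The visible chart at precisions `≥ 2 ^ (-X)`: the weak form of `Dch` which is used. -/
structure DchX (D : NDat2) (n z i j r X : ℕ) (C : ℝ) (q : D.Ω → ℝ) (E : D.Ω → Prop)
    (P : D.Γ × D.Γ → ℕ → PN) {Sg : Type} (s : D.Ω → Sg) (zd : D.Ω → ℕ → ℝ) : Prop where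
  bs : ∀ ω ω', 0 < q ω → 0 < q ω' → bb D i j r ω = bb D i j r ω' → D.T ω = D.T ω' → s ω = s ω'
  sT : ∀ ω ω', 0 < q ω → 0 < q ω' → s ω = s ω' → D.T ω = D.T ω' ∧ D.s i j ω = D.s i j ω'
  bd : ∀ ω, 0 < q ω → E ω → ∀ l, 1 ≤ l → l ≤ n → |zd ω l| ≤ exp (C * z)
  toS : ∀ ω ω', 0 < q ω → 0 < q ω' → E ω → E ω' → s ω = s ω' → ∀ l, 1 ≤ l → l ≤ n →
    ∀ δ : ℝ, ((2 : ℝ) ^ X)⁻¹ ≤ δ → (∀ k, 1 ≤ k → k ≤ l → |zd ω k - zd ω' k| ≤ δ) →
    |2 ^ D.g i j l * D.sh i j ω l - 2 ^ D.g i j l * D.sh i j ω' l| ≤ exp (C * z) * δ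
  ofS : ∀ ω ω', 0 < q ω → 0 < q ω' → E ω → E ω' → s ω = s ω' → ∀ l, 1 ≤ l → l ≤ n →
    ∀ δ : ℝ, ((2 : ℝ) ^ X)⁻¹ ≤ δ → (∀ k, 1 ≤ k → k ≤ l →
      |2 ^ D.g i j k * D.sh i j ω k - 2 ^ D.g i j k * D.sh i j ω' k| ≤ δ) →
    |zd ω l - zd ω' l| ≤ exp (C * z) * δ
  toE : ∀ ω ω', 0 < q ω → 0 < q ω' → E ω → E ω' → bb D i j r ω = bb D i j r ω' →
    D.T ω = D.T ω' → ∀ l, 1 ≤ l → l ≤ n → ∀ δ : ℝ, ((2 : ℝ) ^ X)⁻¹ ≤ δ →
    (∀ k, 1 ≤ k → k ≤ l → |zd ω k - zd ω' k| ≤ δ) →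
    |ze D i j r P ω l - ze D i j r P ω' l| ≤ exp (C * z) * δ
  ofE : ∀ ω ω', 0 < q ω → 0 < q ω' → E ω → E ω' → bb D i j r ω = bb D i j r ω' →
    D.T ω = D.T ω' → ∀ l, 1 ≤ l → l ≤ n → ∀ δ : ℝ, ((2 : ℝ) ^ X)⁻¹ ≤ δ →
    (∀ k, 1 ≤ k → k ≤ l → |ze D i j r P ω k - ze D i j r P ω' k| ≤ δ) →
    |zd ω l - zd ω' l| ≤ exp (C * z) * δ

theorem dch_x {D : NDat2} {n z i j r X : ℕ} {C : ℝ} {q : D.Ω → ℝ} {E : D.Ω → Prop}
    {P : D.Γ × D.Γ → ℕ → PN} {Sg : Type} {s : D.Ω → Sg} {zd : D.Ω → ℕ → ℝ}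
    (h : Dch D n z i j r X C q E P s zd) : DchX D n z i j r X C q E P s zd := by
  have hi : (0 : ℝ) ≤ ((2 : ℝ) ^ X)⁻¹ := by positivity
  exact
    { bs := h.bs
      sT := h.sT
      bd := h.bd
      toS := fun ω ω' a b c d e l f g δ hδ k => h.toS ω ω' a b c d e l f g δ (hi.trans hδ) k
      ofS := fun ω ω' a b c d e l f g δ hδ k => h.ofS ω ω' a b c d e l f g δ (hi.trans hδ) k
      toE := h.toE
      ofE := h.ofE }

/-- Larger constants. -/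
theorem dch_mono {D : NDat2} {n z i j r X : ℕ} {C C' : ℝ} {q : D.Ω → ℝ} {E : D.Ω → Prop}
    {P : D.Γ × D.Γ → ℕ → PN} {Sg : Type} {s : D.Ω → Sg} {zd : D.Ω → ℕ → ℝ}
    (h : DchX D n z i j r X C q E P s zd) (hC : C ≤ C') : DchX D n z i j r X C' q E P s zd := by
  have z0 : (0 : ℝ) ≤ z := Nat.cast_nonneg z
  have he : exp (C * z) ≤ exp (C' * z) :=
    Real.exp_le_exp.mpr (mul_le_mul_of_nonneg_right hC z0)
  have hi : (0 : ℝ) ≤ ((2 : ℝ) ^ X)⁻¹ := by positivity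
  exact
    { bs := h.bs
      sT := h.sT
      bd := fun ω a b l c d => (h.bd ω a b l c d).trans he
      toS := fun ω ω' a b c d e l f g δ hδ k =>
        (h.toS ω ω' a b c d e l f g δ hδ k).trans
          (mul_le_mul_of_nonneg_right he (hi.trans hδ))
      ofS := fun ω ω' a b c d e l f g δ hδ k =>
        (h.ofS ω ω' a b c d e l f g δ hδ k).trans
          (mul_le_mul_of_nonneg_right he (hi.trans hδ))
      toE := fun ω ω' a b c d e t l f g δ hδ k =>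
        (h.toE ω ω' a b c d e t l f g δ hδ k).trans
          (mul_le_mul_of_nonneg_right he (hi.trans hδ))
      ofE := fun ω ω' a b c d e t l f g δ hδ k =>
        (h.ofE ω ω' a b c d e t l f g δ hδ k).trans
          (mul_le_mul_of_nonneg_right he (hi.trans hδ)) }

/-- **Near coordinates.** -/
theorem dch_near {D : NDat2} {n z i j r X : ℕ} {C : ℝ} {q : D.Ω → ℝ} {E : D.Ω → Prop}
    {P : D.Γ × D.Γ → ℕ → PN} {Sg : Type} {s : D.Ω → Sg} {zd zh : D.Ω → ℕ → ℝ}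
    (h : DchX D n z i j r X C q E P s zd) (hC : 0 ≤ C) (hz : 1 ≤ z)
    (hh : ∀ ω, 0 < q ω → E ω → ∀ l, 1 ≤ l → l ≤ n →
      |zh ω l - zd ω l| ≤ exp (C * z) * ((2 : ℝ) ^ X)⁻¹) :
    DchX D n z i j r X (3 + 2 * C) q E P s zh := by
  have z0 : (0 : ℝ) ≤ z := Nat.cast_nonneg z
  have e1 : 1 ≤ exp (C * z) := Real.one_le_exp (by positivity)
  have hi : (0 : ℝ) < ((2 : ℝ) ^ X)⁻¹ := by positivity
  have hi1 : ((2 : ℝ) ^ X)⁻¹ ≤ 1 := inv_le_one_of_one_le₀ (one_le_pow₀ (by norm_num))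
  have m1 := mul_expz (a := 3) (b := 2 * C) (by norm_num) hz
  have m2 : exp (2 * C * z) = exp (C * z) * exp (C * z) := by
    rw [← Real.exp_add]
    congr 1
    ring
  rw [m2] at m1
  obtain ⟨ε, hε⟩ : ∃ ε, ε = exp (C * z) := ⟨_, rfl⟩
  rw [← hε] at e1 m1 hh
  have m3 : 3 * ε ≤ 3 * (ε * ε) := by nlinarith
  -- near coordinates
  have up : ∀ ω ω', 0 < q ω → 0 < q ω' → E ω → E ω' → ∀ k, 1 ≤ k → k ≤ n → ∀ δ : ℝ,
      ((2 : ℝ) ^ X)⁻¹ ≤ δ → |zh ω k - zh ω' k| ≤ δ → |zd ω k - zd ω' k| ≤ 3 * ε * δ := by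
    intro ω ω' a b c d k hk1 hkn δ hδ hk
    have a1 := hh ω a c k hk1 hkn
    have a2 := hh ω' b d k hk1 hkn
    have a3 : ε * ((2 : ℝ) ^ X)⁻¹ ≤ ε * δ := mul_le_mul_of_nonneg_left hδ (by linarith)
    have a4 : δ ≤ ε * δ := by nlinarith
    rw [abs_le] at a1 a2 hk ⊢
    constructor <;> linarith [a1.1, a1.2, a2.1, a2.2, hk.1, hk.2]
  have dn : ∀ ω ω', 0 < q ω → 0 < q ω' → E ω → E ω' → ∀ k, 1 ≤ k → k ≤ n → ∀ δ : ℝ,
      ((2 : ℝ) ^ X)⁻¹ ≤ δ → |zd ω k - zd ω' k| ≤ ε * δ → |zh ω k - zh ω' k| ≤ 3 * ε * δ := by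
    intro ω ω' a b c d k hk1 hkn δ hδ hk
    have a1 := hh ω a c k hk1 hkn
    have a2 := hh ω' b d k hk1 hkn
    have a3 : ε * ((2 : ℝ) ^ X)⁻¹ ≤ ε * δ := mul_le_mul_of_nonneg_left hδ (by linarith)
    rw [abs_le] at a1 a2 hk ⊢
    constructor <;> linarith [a1.1, a1.2, a2.1, a2.2, hk.1, hk.2]
  exact
    { bs := h.bs
      sT := h.sT
      bd := fun ω a b l c d => by
        have a1 := h.bd ω a b l c d
        rw [← hε] at a1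
        have a2 := hh ω a b l c d
        have a3 : ε * ((2 : ℝ) ^ X)⁻¹ ≤ ε * 1 := mul_le_mul_of_nonneg_left hi1 (by linarith)
        have a4 : |zh ω l| ≤ 2 * ε := by
          rw [abs_le] at a1 a2 ⊢
          constructor <;> linarith [a1.1, a1.2, a2.1, a2.2]
        nlinarith
      toS := fun ω ω' a b c d e l f g δ hδ k => by
        have δ0 : 0 < δ := lt_of_lt_of_le hi hδ
        have a1 := h.toS ω ω' a b c d e l f g (3 * ε * δ) (by nlinarith)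
          fun k' hk1 hkl => up ω ω' a b c d k' hk1 (hkl.trans g) δ hδ (k k' hk1 hkl)
        rw [← hε] at a1
        refine a1.trans ?_
        calc ε * (3 * ε * δ) = 3 * (ε * ε) * δ := by ring
          _ ≤ _ := mul_le_mul_of_nonneg_right m1 δ0.le
      ofS := fun ω ω' a b c d e l f g δ hδ k => by
        have δ0 : 0 < δ := lt_of_lt_of_le hi hδ
        have a1 := h.ofS ω ω' a b c d e l f g δ hδ k
        rw [← hε] at a1
        exact (dn ω ω' a b c d l f g δ hδ a1).trans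
          (mul_le_mul_of_nonneg_right (m3.trans m1) δ0.le)
      toE := fun ω ω' a b c d e t l f g δ hδ k => by
        have δ0 : 0 < δ := lt_of_lt_of_le hi hδ
        have a1 := h.toE ω ω' a b c d e t l f g (3 * ε * δ) (by nlinarith)
          fun k' hk1 hkl => up ω ω' a b c d k' hk1 (hkl.trans g) δ hδ (k k' hk1 hkl)
        rw [← hε] at a1
        refine a1.trans ?_
        calc ε * (3 * ε * δ) = 3 * (ε * ε) * δ := by ring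
          _ ≤ _ := mul_le_mul_of_nonneg_right m1 δ0.le
      ofE := fun ω ω' a b c d e t l f g δ hδ k => by
        have δ0 : 0 < δ := lt_of_lt_of_le hi hδ
        have a1 := h.ofE ω ω' a b c d e t l f g δ hδ k
        rw [← hε] at a1
        exact (dn ω ω' a b c d l f g δ hδ a1).trans
          (mul_le_mul_of_nonneg_right (m3.trans m1) δ0.le) }

/-- Digits in `[0, 2 ^ X)`. -/
theorem dgp_lipR {X : ℕ} (x y : ℝ) : |(dgp X x : ℝ) - dgp X y| ≤ 2 ^ X * |x - y| + 1 := by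
  have h1 := clip_lip (2 ^ X - 1) ⌊(2 : ℝ) ^ X * x⌋ ⌊(2 : ℝ) ^ X * y⌋
  have h2 := fl_sub ((2 : ℝ) ^ X * x) (2 ^ X * y)
  rw [← mul_sub, abs_mul, abs_of_pos (by positivity : (0 : ℝ) < 2 ^ X)] at h2
  have h3 : |dgp X x - dgp X y| ≤ |⌊(2 : ℝ) ^ X * x⌋ - ⌊(2 : ℝ) ^ X * y⌋| := h1
  have h4 : ((|dgp X x - dgp X y| : ℤ) : ℝ) ≤
      ((|⌊(2 : ℝ) ^ X * x⌋ - ⌊(2 : ℝ) ^ X * y⌋| : ℤ) : ℝ) := by exact_mod_cast h3
  push_cast at h2 h4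
  exact h4.trans h2

/-- The units. -/
theorem ry_rg {Cd : ℝ} (hCd : 0 ≤ Cd) (z : ℕ) : 1 ≤ Ry z Cd ∧ 2 * Ry z Cd ≤ Rg z Cd ∧ 0 < Rg z Cd ∧
    Rg z Cd = 2 * (Ry z Cd * Ry z Cd) := by
  have h1 := Ry_one hCd z
  have h2 := Pool.P4N.Rg_eq z Cd
  refine ⟨h1, ?_, Rg_pos z Cd, h2⟩
  rw [h2]
  nlinarith

section

variable {D : NDat2} {n K K' J a₀ w₀ z M w i j r r' r'' y X : ℕ} {lam gam : ℕ → ℝ}
  {κ C₁ C : ℝ} {q : D.Ω → ℝ} {E : D.Ω → Prop} {P : D.Γ × D.Γ → ℕ → PN}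
  {S : D.Ω → ℕ → ℕ → ℝ} {c k : ℕ} {ys : Fin k → ℕ} {gs : Fin c → ℕ}
  {Sg σ : Type} {s : D.Ω → Sg} {zd : D.Ω → ℕ → ℝ} {Cd A₀ : ℝ}
  {N : D.Ω → Fin c → ℤ} {Y : D.Ω → Fin k → ℤ} {Sv : D.Ω → σ}
  (H : Hyp D n K K' J a₀ w₀ z M w i j r r' r'' y X lam gam κ C₁ C q E P S ys gs)
  (G : DchX D n z i j r X Cd q E P s zd) (V : VisD D z X Cd A₀ q E ys gs s zd N Y Sv)
  (hCd : 0 ≤ Cd)

include H G V hCd

/-- One coordinate of the group. -/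
theorem zd_gr {ω ω' : D.Ω} (h1 : 0 < q ω) (h2 : 0 < q ω') (hE : E ω) (hE' : E ω') {u : Fin c}
    (e : N ω u = N ω' u) : |zd ω (gs u) - zd ω' (gs u)| ≤ Rg z Cd * ((2 : ℝ) ^ X)⁻¹ := by
  obtain ⟨hRy, hRg1, hRg0, hRg⟩ := ry_rg hCd z
  have hu := H.gs_n u
  have b1 : |zd ω (gs u)| ≤ Ry z Cd := G.bd ω h1 hE _ hu.1 hu.2
  have b2 : |zd ω' (gs u)| ≤ Ry z Cd := G.bd ω' h2 hE' _ hu.1 hu.2
  rw [V.nN ω h1 hE, V.nN ω' h2 hE'] at e
  unfold nuD at e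
  have hdiv : ∀ x : ℝ, |x| ≤ Ry z Cd → |x / Rg z Cd| ≤ 1 := by
    intro x hx
    rw [abs_div, abs_of_pos hRg0, div_le_one hRg0]
    linarith
  have e3 := dg_eq (hdiv _ b1) (hdiv _ b2) e
  rw [← sub_div, abs_div, abs_of_pos hRg0, div_le_iff₀ hRg0] at e3
  linarith

/-- The slow coordinates. -/
theorem zd_sl {ω ω' : D.Ω} (h1 : 0 < q ω) (h2 : 0 < q ω') (hE : E ω) (hE' : E ω') {a : Fin k}
    (e : Y ω a = Y ω' a) : |zd ω (ys a) - zd ω' (ys a)| ≤ Rg z Cd * ((2 : ℝ) ^ X)⁻¹ := by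
  obtain ⟨hRy, hRg1, hRg0, hRg⟩ := ry_rg hCd z
  have hi : (0 : ℝ) < ((2 : ℝ) ^ X)⁻¹ := by positivity
  have ha := H.ys_n a
  have b1 : |zd ω (ys a)| ≤ Ry z Cd := G.bd ω h1 hE _ ha.1 ha.2
  have b2 : |zd ω' (ys a)| ≤ Ry z Cd := G.bd ω' h2 hE' _ ha.1 ha.2
  rw [V.yY ω h1 hE, V.yY ω' h2 hE'] at e
  unfold yD at e
  have hR2 : 0 < 2 * Ry z Cd := by linarith
  obtain ⟨c1, c2⟩ := abs_le.1 b1
  obtain ⟨d1, d2⟩ := abs_le.1 b2
  have e3 := dgp_eq (div_nonneg (by linarith) hR2.le) ((div_le_one hR2).2 (by linarith))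
    (div_nonneg (by linarith) hR2.le) ((div_le_one hR2).2 (by linarith)) e
  rw [← sub_div, abs_div, abs_of_pos hR2, div_le_iff₀ hR2] at e3
  have e4 : zd ω (ys a) + Ry z Cd - (zd ω' (ys a) + Ry z Cd) = zd ω (ys a) - zd ω' (ys a) := by
    ring
  rw [e4] at e3
  nlinarith

/-- The coordinates before the target. -/
theorem zd_low {ω ω' : D.Ω} (h1 : 0 < q ω) (h2 : 0 < q ω') (hE : E ω) (hE' : E ω') {n₀ : Fin c}
    (hn : gs n₀ = n) (hN : ∀ u, u ≠ n₀ → N ω u = N ω' u) (hY : Y ω = Y ω') {l : ℕ}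
    (hl1 : 1 ≤ l) (hln : l < n) : |zd ω l - zd ω' l| ≤ Rg z Cd * ((2 : ℝ) ^ X)⁻¹ := by
  rcases sl_or_gr (gam := gam) hl1 hln.le with hs | hs
  · obtain ⟨a, ha⟩ := H.ys_on l hs
    have := zd_sl H G V hCd h1 h2 hE hE' (congrFun hY a)
    rwa [ha] at this
  · obtain ⟨u, hu⟩ := H.gs_on l hs
    have := zd_gr H G V hCd h1 h2 hE hE' (hN u (by
      intro e
      rw [e, hn] at hu
      omega))
    rwa [hu] at this

/-- The heights of the base over the visible labels. -/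
theorem sh_lowD {ω ω' : D.Ω} (h1 : 0 < q ω) (h2 : 0 < q ω') (hE : E ω) (hE' : E ω')
    {n₀ : Fin c} (hn : gs n₀ = n) (hN : ∀ u, u ≠ n₀ → N ω u = N ω' u) (hY : Y ω = Y ω')
    (hS : Sv ω = Sv ω') {l : ℕ} (hl1 : 1 ≤ l) (hln : l < n) :
    |2 ^ D.g i j l * D.sh i j ω l - 2 ^ D.g i j l * D.sh i j ω' l| ≤
      Ry z Cd * (Rg z Cd * ((2 : ℝ) ^ X)⁻¹) := by
  obtain ⟨hRy, hRg1, hRg0, hRg⟩ := ry_rg hCd z
  have hi : (0 : ℝ) < ((2 : ℝ) ^ X)⁻¹ := by positivity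
  exact G.toS ω ω' h1 h2 hE hE' (V.dS ω ω' h1 h2 hS) l hl1 hln.le _ (by nlinarith)
    fun k' hk1 hkl => zd_low H G V hCd h1 h2 hE hE' hn hN hY hk1 (by omega)

/-- The target. -/
theorem nu_nearD {ω ω' : D.Ω} (h1 : 0 < q ω) (h2 : 0 < q ω') (hE : E ω) (hE' : E ω')
    {n₀ : Fin c} (hn : gs n₀ = n) (hN : ∀ u, u ≠ n₀ → N ω u = N ω' u) (hY : Y ω = Y ω')
    (hS : Sv ω = Sv ω') (hnd : D.nd n i j X ω = D.nd n i j X ω') :
    |((N ω n₀ - N ω' n₀ : ℤ) : ℝ)| ≤ Ry z Cd * Ry z Cd + 1 := by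
  obtain ⟨hRy, hRg1, hRg0, hRg⟩ := ry_rg hCd z
  have hp : (0 : ℝ) < 2 ^ X := by positivity
  have hi : (0 : ℝ) < ((2 : ℝ) ^ X)⁻¹ := by positivity
  have hpi : (2 : ℝ) ^ X * ((2 : ℝ) ^ X)⁻¹ = 1 := mul_inv_cancel₀ hp.ne'
  have k1 : |zd ω n - zd ω' n| ≤ Ry z Cd * (Ry z Cd * (Rg z Cd * ((2 : ℝ) ^ X)⁻¹)) := by
    have hRR : 1 ≤ Ry z Cd * Rg z Cd := by nlinarith
    refine G.ofS ω ω' h1 h2 hE hE' (V.dS ω ω' h1 h2 hS) n H.n1 le_rfl _ (by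
      rw [← mul_assoc]
      nlinarith) fun k' hk1 hkn => ?_
    rcases lt_or_eq_of_le hkn with hk | hk
    · exact sh_lowD H G V hCd h1 h2 hE hE' hn hN hY hS hk1 hk
    · subst hk
      unfold NDat2.nd at hnd
      have e1 := fl_eq hnd
      rw [pow_add] at e1
      have e2 : (2 : ℝ) ^ D.g i j k' * 2 ^ X * D.sh i j ω k' -
          2 ^ D.g i j k' * 2 ^ X * D.sh i j ω' k' =
          2 ^ X * (2 ^ D.g i j k' * D.sh i j ω k' - 2 ^ D.g i j k' * D.sh i j ω' k') := by ring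
      rw [e2, abs_mul, abs_of_pos hp] at e1
      have e3 : |2 ^ D.g i j k' * D.sh i j ω k' - 2 ^ D.g i j k' * D.sh i j ω' k'| ≤
          ((2 : ℝ) ^ X)⁻¹ := by
        rw [← one_div, le_div_iff₀ hp]
        linarith
      refine e3.trans ?_
      have e4 : 1 ≤ Ry z Cd * Rg z Cd := by nlinarith
      calc ((2 : ℝ) ^ X)⁻¹ = 1 * ((2 : ℝ) ^ X)⁻¹ := by ring
        _ ≤ (Ry z Cd * Rg z Cd) * ((2 : ℝ) ^ X)⁻¹ := mul_le_mul_of_nonneg_right e4 hi.le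
        _ = _ := by ring
  have hgn := H.gs_n n₀
  have b1 : |zd ω n| ≤ Ry z Cd := G.bd ω h1 hE _ H.n1 le_rfl
  have b2 : |zd ω' n| ≤ Ry z Cd := G.bd ω' h2 hE' _ H.n1 le_rfl
  have hdiv : ∀ x : ℝ, |x| ≤ Ry z Cd → |x / Rg z Cd| ≤ 1 := by
    intro x hx
    rw [abs_div, abs_of_pos hRg0, div_le_one hRg0]
    linarith
  have e8 := dg_sub (X := X) (hdiv _ b1) (hdiv _ b2)
  rw [← sub_div, abs_div, abs_of_pos hRg0] at e8
  rw [V.nN ω h1 hE, V.nN ω' h2 hE']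
  unfold nuD
  rw [hn]
  refine e8.trans ?_
  have e9 : (2 : ℝ) ^ X * (|zd ω n - zd ω' n| / Rg z Cd) ≤ Ry z Cd * Ry z Cd := by
    rw [← mul_div_assoc, div_le_iff₀ hRg0]
    calc (2 : ℝ) ^ X * |zd ω n - zd ω' n| ≤
        2 ^ X * (Ry z Cd * (Ry z Cd * (Rg z Cd * ((2 : ℝ) ^ X)⁻¹))) :=
          mul_le_mul_of_nonneg_left k1 hp.le
      _ = (2 ^ X * ((2 : ℝ) ^ X)⁻¹) * (Ry z Cd * Ry z Cd * Rg z Cd) := by ring
      _ = Ry z Cd * Ry z Cd * Rg z Cd := by rw [hpi, one_mul]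
  linarith

omit V hCd in
/-- **The deeper context knows the exact point to its depth.** -/
theorem zd_ctx {v : ℕ} (hx : v * z ≤ X) (hM : i + v + r'' < M) {ω ω' : D.Ω} (h1 : 0 < q ω)
    (h2 : 0 < q ω') (hE : E ω) (hE' : E ω') (e : (D.c (i - 1) (j - r) ω, (D.c (i + v) j ω, D.T ω)) =
      (D.c (i - 1) (j - r) ω', (D.c (i + v) j ω', D.T ω'))) {l : ℕ} (hl1 : 1 ≤ l) (hln : l ≤ n) :
    |zd ω l - zd ω' l| ≤ Ry z Cd * (4 * (exp (C * z) / 2 ^ (v * z))) := by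
  obtain ⟨f1, f2, f3⟩ := H.up (i' := i + v) (by omega) hM h1 h2 e
  have he := H.e1
  obtain ⟨τ, hτ⟩ : ∃ τ, τ = exp (C * z) / 2 ^ (y * z) := ⟨_, rfl⟩
  have ht := H.tau
  have hg := H.geo
  rw [← hτ] at ht hg
  have hpX : (0 : ℝ) < 2 ^ X := by positivity
  have hpv : (0 : ℝ) < 2 ^ (v * z) := by positivity
  have hτ1 : τ ≤ ((2 : ℝ) ^ X)⁻¹ := by
    rw [← one_div, le_div_iff₀ hpX]
    linarith
  have hvX : ((2 : ℝ) ^ X)⁻¹ ≤ ((2 : ℝ) ^ (v * z))⁻¹ :=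
    inv_anti₀ hpv (pow_le_pow_right₀ (by norm_num) hx)
  have hve : ((2 : ℝ) ^ (v * z))⁻¹ ≤ exp (C * z) / 2 ^ (v * z) := by
    rw [← one_div]
    exact div_le_div_of_nonneg_right he hpv.le
  obtain ⟨ε, hε⟩ : ∃ ε, ε = exp (C * z) / 2 ^ (v * z) := ⟨_, rfl⟩
  rw [← hε] at hve ⊢
  have hτε : τ ≤ ε := (hτ1.trans hvX).trans hve
  refine G.ofE ω ω' h1 h2 hE hE' f1 f3 l hl1 hln (4 * ε) ?_ ?_
  · have : 0 < ε := lt_of_lt_of_le (by positivity) hve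
    linarith [hvX.trans hve]
  · intro k' hk1 hkl
    have hkn := hkl.trans hln
    obtain ⟨d1, d2⟩ := H.dep.ctx (i + v) (by omega) (by omega) ω ω' h1 h2 hE hE' f1 f2 w H.w1 H.w2
      (by rw [f3]) k' hk1 hkn
    rw [Nat.add_sub_cancel_left, ← hε] at d1 d2
    rcases sl_or_gr (gam := gam) hk1 hkn with hs | hs
    · have a1 := hg.slow ω h1 hE k' hs w H.w1 H.w2
      have a2 := hg.slow ω' h2 hE' k' hs w H.w1 H.w2
      rw [abs_le] at a1 a2 d1 ⊢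
      constructor <;> linarith [a1.1, a1.2, a2.1, a2.2, d1.1, d1.2]
    · have a1 := hg.grp ω h1 hE k' hs w H.w1 H.w2
      have a2 := hg.grp ω' h2 hE' k' hs w H.w1 H.w2
      have x1 := H.ok.X_zero ω
      have x2 := H.ok.X_zero ω'
      have hwJ : w ≤ J := by
        have := H.wX
        omega
      obtain ⟨r0, r1⟩ := rt_bd hwJ x1
      have rr := rt_T (J := J) (w := w) x1 x2 f3
      rw [← rr] at a2
      have e6 : |rt D J w ω * be D J w i j r P ω k' - rt D J w ω * be D J w i j r P ω' k'| ≤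
          ε := by
        rw [← mul_sub, abs_mul, abs_of_nonneg r0]
        calc rt D J w ω * |be D J w i j r P ω k' - be D J w i j r P ω' k'| ≤
            1 * |be D J w i j r P ω k' - be D J w i j r P ω' k'| :=
              mul_le_mul_of_nonneg_right r1 (abs_nonneg _)
          _ ≤ _ := by rw [one_mul]; exact d2
      rw [abs_le] at a1 a2 d1 e6 ⊢
      constructor <;> linarith [a1.1, a1.2, a2.1, a2.2, d1.1, d1.2, e6.1, e6.2]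

/-- The exact point over the closed frame, from the visible digits. -/
theorem ze_low {ω ω' : D.Ω} (h1 : 0 < q ω) (h2 : 0 < q ω') (hE : E ω) (hE' : E ω')
    (hbb : bb D i j r ω = bb D i j r ω') (hT : D.T ω = D.T ω') {n₀ : Fin c}
    (hn : gs n₀ = n) (hN : ∀ u, u ≠ n₀ → N ω u = N ω' u) (hY : Y ω = Y ω') {l : ℕ}
    (hl1 : 1 ≤ l) (hln : l < n) :
    |ze D i j r P ω l - ze D i j r P ω' l| ≤ Ry z Cd * (Rg z Cd * ((2 : ℝ) ^ X)⁻¹) := by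
  obtain ⟨hRy, hRg1, hRg0, hRg⟩ := ry_rg hCd z
  have hi : (0 : ℝ) < ((2 : ℝ) ^ X)⁻¹ := by positivity
  refine G.toE ω ω' h1 h2 hE hE' hbb hT l hl1 hln.le _ ?_ fun k' hk1 hkl =>
    zd_low H G V hCd h1 h2 hE hE' hn hN hY hk1 (by omega)
  nlinarith

end

end Pool.P4N
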