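import Pool.Agent.H98.P4.NFvA

/-!
# The visible digits (P4): few values
-/

set_option autoImplicit false

namespace Pool.P4N

open Finset Real
open Pool.Agent.H49.Ent Pool.Agent.H32.Dense Pool.STK Pool.STAT Pool.MIC Pool.P4
open Pool.MIC.Frm
open Pool.BFL (Pb)

section

variable {D : NDat2} {n K K' J a₀ w₀ z M w i j r r' r'' y X : ℕ} {lam gam : ℕ → ℝ}
  {κ C₁ C : ℝ} {q : D.Ω → ℝ} {E : D.Ω → Prop} {P : D.Γ × D.Γ → ℕ → PN}
  {S : D.Ω → ℕ → ℕ → ℝ} {c k : ℕ} {ys : Fin k → ℕ} {gs : Fin c → ℕ}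
  {Sg σ : Type} {s : D.Ω → Sg} {zd : D.Ω → ℕ → ℝ} {Cd A₀ : ℝ}
  {N : D.Ω → Fin c → ℤ} {Y : D.Ω → Fin k → ℤ} {Sv : D.Ω → σ}
  (H : Hyp D n K K' J a₀ w₀ z M w i j r r' r'' y X lam gam κ C₁ C q E P S ys gs)
  (G : DchX D n z i j r X Cd q E P s zd) (V : VisD D z X Cd A₀ q E ys gs s zd N Y Sv)
  (hCd : 0 ≤ Cd)

include H G V hCd

/-- **(few, 1v)** The first digits of the group, given the deeper context. -/
theorem few1v (hA : 0 ≤ A₀) {x v : ℕ} (hx : x ≤ X) (hv : v * z ≤ x) (hv' : x < v * z + z)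
    (hM : i + v + r'' < M) {S' : Type} (B : D.Ω → S') :
    CH q (fun ω (u : Fin c) => N ω u / 2 ^ (X - x))
      (fun ω => (B ω, (D.c (i - 1) (j - r) ω, (D.c (i + v) j ω, D.T ω)))) ≤
      aE c (5 + C + A₀) * (z + X * Pb q (fun ω => ¬ E ω)) := by
  have hz := H.z1
  have z1 : (1 : ℝ) ≤ z := by exact_mod_cast hz
  have x0 : (0 : ℝ) ≤ X := Nat.cast_nonneg X
  have C0 : 0 ≤ C := by linarith [H.Cg]
  have key := few_exp0 H.ok.isLaw
    (fun ω (u : Fin c) => N ω u / 2 ^ (X - x))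
    (fun ω => (B ω, (D.c (i - 1) (j - r) ω, (D.c (i + v) j ω, D.T ω)))) E (A := 5 + C + A₀) (X := X)
    (by positivity) hz ?_ ?_
  · rwa [Fintype.card_fin] at key
  · intro ω ω' hω hω' hE hE' e u
    obtain ⟨hRy, hRg1, hRg0, hRg⟩ := ry_rg hCd z
    have e1 := (Prod.ext_iff.mp e).2
    have hu := H.gs_n u
    have h1 := zd_ctx H G (hv.trans hx) hM hω hω' hE hE' e1 hu.1 hu.2
    have h2 := dgR (X := X) (z := z) (C := Cd) (zd ω (gs u)) (zd ω' (gs u))
    have h3 : 2 ^ X / Rg z Cd * |zd ω (gs u) - zd ω' (gs u)| ≤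
        2 * exp (C * z) * 2 ^ (X - v * z) := by
      have h4 : (2 : ℝ) ^ X = 2 ^ (X - v * z) * 2 ^ (v * z) := by
        rw [← pow_add]
        congr 1
        omega
      have h5 : Ry z Cd / Rg z Cd ≤ 1 / 2 := by
        rw [div_le_iff₀ hRg0]
        linarith
      calc _ ≤ 2 ^ X / Rg z Cd * (Ry z Cd * (4 * (exp (C * z) / 2 ^ (v * z)))) :=
            mul_le_mul_of_nonneg_left h1 (by positivity)
        _ = (Ry z Cd / Rg z Cd) * (4 * exp (C * z) * (2 ^ X / 2 ^ (v * z))) := by ring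
        _ ≤ (1 / 2) * (4 * exp (C * z) * (2 ^ X / 2 ^ (v * z))) :=
            mul_le_mul_of_nonneg_right h5 (by positivity)
        _ = 2 * exp (C * z) * 2 ^ (X - v * z) := by
            rw [h4, mul_div_assoc, div_self (by positivity)]
            ring
    have h4 := div_lipR (m := X - x) (h2.trans (add_le_add_left h3 1))
    rw [V.nN ω hω hE, V.nN ω' hω' hE']
    unfold nuD
    refine h4.trans ?_
    have h5 : (2 : ℝ) ^ (X - v * z) / 2 ^ (X - x) ≤ 2 ^ z := by
      rw [div_le_iff₀ (by positivity), ← pow_add]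
      exact pow_le_pow_right₀ (by norm_num) (by omega)
    have h6 : (1 : ℝ) / 2 ^ (X - x) ≤ 1 := by
      rw [div_le_one (by positivity)]
      exact one_le_pow₀ (by norm_num)
    have h7 := two_pow_exp z
    have h8 := mul_expz (a := 4) (b := C + 1) (by norm_num) hz
    have h9 : exp ((C + 1) * z) = exp (C * z) * exp z := by
      rw [← Real.exp_add]
      congr 1
      ring
    have h10 : (1 : ℝ) ≤ exp z := Real.one_le_exp (by linarith)
    have h11 := H.e1
    have h12 : (1 : ℝ) ≤ exp (C * z) * exp z := by nlinarith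
    have h13 : exp ((4 + (C + 1)) * z) ≤ exp ((5 + C + A₀) * z) :=
      Real.exp_le_exp.mpr (by nlinarith)
    have h14 : 2 * exp (C * z) * 2 ^ (X - v * z) / 2 ^ (X - x) ≤ 2 * (exp (C * z) * exp z) := by
      calc 2 * exp (C * z) * 2 ^ (X - v * z) / 2 ^ (X - x) =
          2 * exp (C * z) * ((2 : ℝ) ^ (X - v * z) / 2 ^ (X - x)) := by ring
        _ ≤ 2 * exp (C * z) * exp z :=
            mul_le_mul_of_nonneg_left (h5.trans h7) (by positivity)
        _ = _ := by ring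
    rw [h9] at h8
    rw [add_div]
    linarith
  · intro ω hω u
    have h0 : (1 : ℝ) ≤ exp (A₀ * (z + X)) := Real.one_le_exp (by positivity)
    have h1 := div_absR (m := X - x) h0 (V.nB ω hω u)
    have h3 : (2 : ℝ) * exp (A₀ * (z + X)) ≤ exp ((5 + C + A₀) * (z + X)) := by
      have h4 : (2 : ℝ) ≤ exp 1 := by
        have := Real.add_one_le_exp (1 : ℝ)
        linarith
      calc (2 : ℝ) * exp (A₀ * (z + X)) ≤ exp 1 * exp (A₀ * (z + X)) :=
            mul_le_mul_of_nonneg_right h4 (Real.exp_pos _).le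
        _ = exp (1 + A₀ * (z + X)) := (Real.exp_add _ _).symm
        _ ≤ _ := Real.exp_le_exp.mpr (by nlinarith)
    exact h1.trans h3

/-- **(few, 8v)** The entropy of the slow coordinates, given the deeper context. -/
theorem few8v (hA : 0 ≤ A₀) {v : ℕ} (hx : v * z ≤ X) (hM : i + v + r'' < M) {S' : Type}
    (B : D.Ω → S') :
    CH q Y (fun ω => (B ω, (D.c (i - 1) (j - r) ω, (D.c (i + v) j ω, D.T ω)))) ≤
      k * (((X - v * z : ℕ) : ℝ) * Real.log 2) +
        aE k (3 + C + A₀) * (z + X * Pb q (fun ω => ¬ E ω)) := by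
  have hz := H.z1
  have z1 : (1 : ℝ) ≤ z := by exact_mod_cast hz
  have x0 : (0 : ℝ) ≤ X := Nat.cast_nonneg X
  have C0 : 0 ≤ C := by linarith [H.Cg]
  have key := few_exp H.ok.isLaw Y
    (fun ω => (B ω, (D.c (i - 1) (j - r) ω, (D.c (i + v) j ω, D.T ω)))) E (A := 3 + C + A₀) (X := X)
    (by positivity) (X - v * z) hz ?_ ?_
  · rwa [Fintype.card_fin] at key
  · intro ω ω' hω hω' hE hE' e a
    obtain ⟨hRy, hRg1, hRg0, hRg⟩ := ry_rg hCd z
    have e1 := (Prod.ext_iff.mp e).2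
    have ha := H.ys_n a
    have h1 := zd_ctx H G hx hM hω hω' hE hE' e1 ha.1 ha.2
    have hR2 : 0 < 2 * Ry z Cd := by linarith
    have h2 := dgp_lipR (X := X) ((zd ω (ys a) + Ry z Cd) / (2 * Ry z Cd))
      ((zd ω' (ys a) + Ry z Cd) / (2 * Ry z Cd))
    have h2' : (zd ω (ys a) + Ry z Cd) / (2 * Ry z Cd) - (zd ω' (ys a) + Ry z Cd) / (2 * Ry z Cd)
        = (zd ω (ys a) - zd ω' (ys a)) / (2 * Ry z Cd) := by
      rw [← sub_div]
      congr 1
      ring
    rw [h2', abs_div, abs_of_pos hR2] at h2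
    have h3 : (2 : ℝ) ^ X * (|zd ω (ys a) - zd ω' (ys a)| / (2 * Ry z Cd)) ≤
        2 * exp (C * z) * 2 ^ (X - v * z) := by
      have h4 : (2 : ℝ) ^ X = 2 ^ (X - v * z) * 2 ^ (v * z) := by
        rw [← pow_add]
        congr 1
        omega
      calc _ ≤ 2 ^ X * ((Ry z Cd * (4 * (exp (C * z) / 2 ^ (v * z)))) / (2 * Ry z Cd)) :=
            mul_le_mul_of_nonneg_left (div_le_div_of_nonneg_right h1 hR2.le) (by positivity)
        _ = (Ry z Cd / Ry z Cd) * (2 * exp (C * z) * (2 ^ X / 2 ^ (v * z))) := by ring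
        _ = 2 * exp (C * z) * 2 ^ (X - v * z) := by
            rw [div_self (by positivity), one_mul, h4, mul_div_assoc, div_self (by positivity)]
            ring
    rw [V.yY ω hω hE, V.yY ω' hω' hE']
    unfold yD
    refine h2.trans ?_
    have h5 : (1 : ℝ) ≤ 2 ^ (X - v * z) := one_le_pow₀ (by norm_num)
    have h11 := H.e1
    have h6 := mul_expz (a := 3) (b := C) (by norm_num) hz
    have h7 : exp ((3 + C) * z) ≤ exp ((3 + C + A₀) * z) :=
      Real.exp_le_exp.mpr (by nlinarith)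
    have h8 : (1 : ℝ) ≤ exp (C * z) * 2 ^ (X - v * z) := by nlinarith
    have h9 : 3 * exp (C * z) * 2 ^ (X - v * z) ≤ exp ((3 + C + A₀) * z) * 2 ^ (X - v * z) :=
      mul_le_mul_of_nonneg_right (h6.trans h7) (by positivity)
    linarith
  · intro ω hω a
    refine (V.yB ω hω a).trans (Real.exp_le_exp.mpr ?_)
    have : (0 : ℝ) ≤ (3 + C) * (z + X) := by positivity
    nlinarith

/-- **(few, 6v)** The digits over the visible labels of the deeper place, from the visible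
digits. -/
theorem few6v {v U : ℕ} (hx : (v + U) * z = X) (hM : i + v + r'' < M) {n₀ : Fin c}
    (hn : gs n₀ = n) {S' : Type} (B : D.Ω → S') :
    CH q (D.vd n (i + v) j (U * z)) (fun ω => (Y ω, ((fun u : {u : Fin c // u ≠ n₀} => N ω u),
        (B ω, (D.c (i - 1) (j - r) ω, (D.c (i + v) j ω, D.T ω)))))) ≤
      aE (n - 1) (3 + 2 * C₁ + C + 3 * Cd) * (z + X * Pb q (fun ω => ¬ E ω)) := by
  have hz := H.z1
  have z1 : (1 : ℝ) ≤ z := by exact_mod_cast hz
  have x0 : (0 : ℝ) ≤ X := Nat.cast_nonneg X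
  have C0 : 0 ≤ C := by linarith [H.Cg]
  have C10 : 0 ≤ C₁ := by linarith [H.C1]
  have key := few_exp0 H.ok.isLaw (D.vd n (i + v) j (U * z))
    (fun ω => (Y ω, ((fun u : {u : Fin c // u ≠ n₀} => N ω u),
        (B ω, (D.c (i - 1) (j - r) ω, (D.c (i + v) j ω, D.T ω)))))) E
    (A := 3 + 2 * C₁ + C + 3 * Cd) (X := X) (by positivity) hz ?_ ?_
  · rwa [Fintype.card_fin] at key
  · intro ω ω' hω hω' hE hE' e l
    obtain ⟨hRy, hRg1, hRg0, hRg⟩ := ry_rg hCd z
    have e1 : Y ω = Y ω' := (Prod.ext_iff.mp e).1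
    have e2 := (Prod.ext_iff.mp e).2
    have e3 : ∀ u, u ≠ n₀ → N ω u = N ω' u := fun u hu =>
      congrFun (Prod.ext_iff.mp e2).1 ⟨u, hu⟩
    have e4 := (Prod.ext_iff.mp (Prod.ext_iff.mp e2).2).2
    obtain ⟨f1, f2, f3⟩ := H.up (i' := i + v) (by omega) hM hω hω' e4
    have hl : (l : ℕ) + 1 < n := by
      have := l.2
      omega
    have h1 := H.dep.toV (i + v) (by omega) (by omega) ω ω' hω hω' hE hE' f1 f2 f3 (l + 1)
      (by omega) hl.le (Ry z Cd * (Rg z Cd * ((2 : ℝ) ^ X)⁻¹)) (by positivity)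
      fun k' hk1 hk2 => ze_low H G V hCd hω hω' hE hE' f1 f3 hn e3 e1 hk1 (by omega)
    rw [← mul_sub, abs_mul, abs_of_pos (by positivity : (0 : ℝ) < 2 ^ D.g i j (l + 1))] at h1
    obtain ⟨d, hd⟩ : ∃ d, d = |D.sh (i + v) j ω (l + 1) - D.sh (i + v) j ω' (l + 1)| := ⟨_, rfl⟩
    rw [← hd] at h1
    have hh1 := H.ok.hom (i + v) (by omega) j (by have := H.j2; omega) (l + 1) (by omega) hl.le
    have hh2 := H.ok.hom i (by omega) j (by have := H.j2; omega) (l + 1) (by omega) hl.le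
    rw [H.lam1 _ (by omega) hl.le] at hh1 hh2
    have hgg : ((D.g (i + v) j (l + 1) + U * z : ℕ) : ℝ) ≤
        D.g i j (l + 1) + X + 2 * C₁ * z := by
      have hX' : (X : ℝ) = (v + U) * z := by
        rw [← hx]
        push_cast
        ring
      rw [abs_le] at hh1 hh2
      push_cast at hh1 hh2 ⊢
      rw [hX']
      linarith [hh1.1, hh1.2, hh2.1, hh2.2]
    have h2 : (2 : ℝ) ^ (D.g (i + v) j (l + 1) + U * z) ≤
        2 ^ D.g i j (l + 1) * 2 ^ X * exp (2 * C₁ * z) := by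
      have l2 : 0 ≤ Real.log 2 := Real.log_nonneg (by norm_num)
      have l1 : Real.log 2 ≤ 1 := by
        have := Real.log_le_sub_one_of_pos (by norm_num : (0 : ℝ) < 2)
        linarith
      have g0 : 0 ≤ 2 * C₁ * z := by positivity
      have m1 := mul_le_mul_of_nonneg_right hgg l2
      have e0 : ∀ m : ℕ, (2 : ℝ) ^ m = exp (m * Real.log 2) := by
        intro m
        rw [← Real.log_pow, Real.exp_log (by positivity)]
      rw [e0, e0 (D.g i j (l + 1)), e0 X, ← Real.exp_add, ← Real.exp_add]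
      refine Real.exp_le_exp.mpr (m1.trans ?_)
      nlinarith
    have h3 : (2 : ℝ) ^ (D.g (i + v) j (l + 1) + U * z) * d ≤
        2 * exp ((2 * C₁ + C + 3 * Cd) * z) := by
      have d0 : 0 ≤ d := by
        rw [hd]
        exact abs_nonneg _
      calc _ ≤ 2 ^ D.g i j (l + 1) * 2 ^ X * exp (2 * C₁ * z) * d :=
            mul_le_mul_of_nonneg_right h2 d0
        _ = 2 ^ X * exp (2 * C₁ * z) * (2 ^ D.g i j (l + 1) * d) := by ring
        _ ≤ 2 ^ X * exp (2 * C₁ * z) *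
            (exp (C * z) * (Ry z Cd * (Rg z Cd * ((2 : ℝ) ^ X)⁻¹))) :=
            mul_le_mul_of_nonneg_left h1 (by positivity)
        _ = exp (2 * C₁ * z) * exp (C * z) * (Ry z Cd * Rg z Cd) := by
            field_simp
        _ = 2 * exp ((2 * C₁ + C + 3 * Cd) * z) := by
            rw [hRg]
            unfold Ry
            rw [show (2 * C₁ + C + 3 * Cd) * z = 2 * C₁ * z + C * z + (Cd * z + (Cd * z + Cd * z))
              by ring, Real.exp_add, Real.exp_add, Real.exp_add, Real.exp_add]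
            ring
    have h4 : |(2 : ℝ) ^ (D.g (i + v) j (l + 1) + U * z) * D.sh (i + v) j ω (l + 1) -
        2 ^ (D.g (i + v) j (l + 1) + U * z) * D.sh (i + v) j ω' (l + 1)| ≤
        2 * exp ((2 * C₁ + C + 3 * Cd) * z) := by
      rw [← mul_sub, abs_mul, abs_of_pos (by positivity), ← hd]
      exact h3
    have h5 := floor_near h4
    push_cast at h5
    unfold NDat2.vd
    have h6 : (1 : ℝ) ≤ exp ((2 * C₁ + C + 3 * Cd) * z) := Real.one_le_exp (by positivity)
    have h7 := mul_expz (a := 3) (b := 2 * C₁ + C + 3 * Cd) (by norm_num) hz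
    rw [show 3 + 2 * C₁ + C + 3 * Cd = 3 + (2 * C₁ + C + 3 * Cd) by ring]
    linarith
  · intro ω hω l
    have hl : (l : ℕ) + 1 < n := by
      have := l.2
      omega
    have h1 := sh_bd (H.ok.pos (i + v) (by omega) j (by have := H.j2; omega) ω hω (l + 1)
      (by omega) hl.le) (U * z)
    unfold NDat2.vd
    refine h1.trans ?_
    have h4 : (2 : ℝ) ^ (U * z) ≤ 2 ^ X := by
      refine pow_le_pow_right₀ (by norm_num) ?_
      rw [← hx]
      exact Nat.mul_le_mul_right _ (by omega)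
    refine h4.trans ((two_pow_exp X).trans (Real.exp_le_exp.mpr ?_))
    have h7 : 0 ≤ 2 + 2 * C₁ + C + 3 * Cd := by positivity
    have h8 : (0 : ℝ) ≤ z + X := by positivity
    have h9 : 0 ≤ (2 + 2 * C₁ + C + 3 * Cd) * ((z : ℝ) + X) := mul_nonneg h7 h8
    linarith

/-- **(few, v)** The digits of the base over the visible labels at `(i, j)`. -/
theorem few_vdD {n₀ : Fin c} (hn : gs n₀ = n) (hiM : i ≤ M) (hjM : j ≤ M) :
    CH q (D.vd n i j X) (fun ω => ((fun u : {u : Fin c // u ≠ n₀} => N ω u), (Y ω, Sv ω))) ≤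
      aE (n - 1) (3 + 3 * Cd) * (z + X * Pb q (fun ω => ¬ E ω)) := by
  have hz := H.z1
  have z1 : (1 : ℝ) ≤ z := by exact_mod_cast hz
  have x0 : (0 : ℝ) ≤ X := Nat.cast_nonneg X
  have key := few_exp0 H.ok.isLaw (D.vd n i j X)
    (fun ω => ((fun u : {u : Fin c // u ≠ n₀} => N ω u), (Y ω, Sv ω))) E
    (A := 3 + 3 * Cd) (X := X) (by positivity) hz ?_ ?_
  · rwa [Fintype.card_fin] at key
  · intro ω ω' hω hω' hE hE' e l
    obtain ⟨hRy, hRg1, hRg0, hRg⟩ := ry_rg hCd z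
    have e1 : ∀ u, u ≠ n₀ → N ω u = N ω' u := fun u hu =>
      congrFun (Prod.ext_iff.mp e).1 ⟨u, hu⟩
    have e2 : Y ω = Y ω' := (Prod.ext_iff.mp (Prod.ext_iff.mp e).2).1
    have e3 : Sv ω = Sv ω' := (Prod.ext_iff.mp (Prod.ext_iff.mp e).2).2
    have hl : (l : ℕ) + 1 < n := by
      have := l.2
      omega
    have h1 := sh_lowD H G V hCd hω hω' hE hE' hn e1 e2 e3 (l := l + 1) (by omega) hl
    unfold NDat2.vd
    have h2 := fl_sub (2 ^ (D.g i j (l + 1) + X) * D.sh i j ω (l + 1))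
      (2 ^ (D.g i j (l + 1) + X) * D.sh i j ω' (l + 1))
    have hpX : (0 : ℝ) < 2 ^ X := by positivity
    have h3 : (2 : ℝ) ^ (D.g i j (l + 1) + X) * D.sh i j ω (l + 1) -
        2 ^ (D.g i j (l + 1) + X) * D.sh i j ω' (l + 1) =
        2 ^ X * (2 ^ D.g i j (l + 1) * D.sh i j ω (l + 1) -
          2 ^ D.g i j (l + 1) * D.sh i j ω' (l + 1)) := by
      rw [pow_add]
      ring
    rw [h3, abs_mul, abs_of_pos hpX] at h2
    push_cast at h2
    have h4 := mul_le_mul_of_nonneg_left h1 hpX.le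
    have h5 : (2 : ℝ) ^ X * (Ry z Cd * (Rg z Cd * ((2 : ℝ) ^ X)⁻¹)) = Ry z Cd * Rg z Cd := by
      field_simp
    have h6 : Ry z Cd * Rg z Cd = 2 * exp (3 * Cd * z) := by
      rw [hRg]
      unfold Ry
      rw [show 3 * Cd * z = Cd * z + (Cd * z + Cd * z) by ring, Real.exp_add, Real.exp_add]
      ring
    rw [h5, h6] at h4
    have h7 := mul_expz (a := 3) (b := 3 * Cd) (by norm_num) hz
    have h8 : (1 : ℝ) ≤ exp (3 * Cd * z) := Real.one_le_exp (by positivity)
    linarith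
  · intro ω hω l
    have hl : (l : ℕ) + 1 < n := by
      have := l.2
      omega
    have h1 := sh_bd (H.ok.pos i hiM j hjM ω hω (l + 1) (by omega) hl.le) X
    unfold NDat2.vd
    refine h1.trans ((two_pow_exp X).trans (Real.exp_le_exp.mpr ?_))
    have h8 : (0 : ℝ) ≤ z + X := by positivity
    have h9 : 0 ≤ (2 + 3 * Cd) * ((z : ℝ) + X) := mul_nonneg (by positivity) h8
    linarith

/-- **(few, n)** The target, given its height over the visible label. -/
theorem few_nuD (hA : 0 ≤ A₀) {n₀ : Fin c} (hn : gs n₀ = n) :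
    CH q (fun ω => N ω n₀) (fun ω => (D.nd n i j X ω,
      ((fun u : {u : Fin c // u ≠ n₀} => N ω u), (Y ω, Sv ω)))) ≤
      aE 1 (2 + 2 * Cd + A₀) * (z + X * Pb q (fun ω => ¬ E ω)) := by
  have hz := H.z1
  have z1 : (1 : ℝ) ≤ z := by exact_mod_cast hz
  have x0 : (0 : ℝ) ≤ X := Nat.cast_nonneg X
  have h0 := H.ok.isLaw.nonneg
  have e0 : CH q (fun ω => N ω n₀) (fun ω => (D.nd n i j X ω,
      ((fun u : {u : Fin c // u ≠ n₀} => N ω u), (Y ω, Sv ω)))) ≤
      CH q (fun ω (_ : Fin 1) => N ω n₀) (fun ω => (D.nd n i j X ω,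
      ((fun u : {u : Fin c // u ≠ n₀} => N ω u), (Y ω, Sv ω)))) := by
    refine CH_mono_left h0 ?_
    intro ω ω' _ _ e
    simp only [Prod.mk.injEq] at e
    exact congrFun e.1 0
  have key := few_exp0 H.ok.isLaw (fun ω (_ : Fin 1) => N ω n₀)
    (fun ω => (D.nd n i j X ω,
      ((fun u : {u : Fin c // u ≠ n₀} => N ω u), (Y ω, Sv ω)))) E
    (A := 2 + 2 * Cd + A₀) (X := X) (by positivity) hz ?_ ?_
  · rw [Fintype.card_fin] at key
    exact e0.trans key
  · intro ω ω' hω hω' hE hE' e _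
    obtain ⟨hRy, hRg1, hRg0, hRg⟩ := ry_rg hCd z
    have e1 := (Prod.ext_iff.mp e).2
    have e2 : ∀ u, u ≠ n₀ → N ω u = N ω' u := fun u hu =>
      congrFun (Prod.ext_iff.mp e1).1 ⟨u, hu⟩
    have e3 : Y ω = Y ω' := (Prod.ext_iff.mp (Prod.ext_iff.mp e1).2).1
    have e4 : Sv ω = Sv ω' := (Prod.ext_iff.mp (Prod.ext_iff.mp e1).2).2
    have h1 := nu_nearD H G V hCd hω hω' hE hE' hn e2 e3 e4 (Prod.ext_iff.mp e).1
    push_cast at h1
    have h2 : Ry z Cd * Ry z Cd = exp (2 * Cd * z) := by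
      unfold Ry
      rw [← Real.exp_add]
      congr 1
      ring
    rw [h2] at h1
    have h7 := mul_expz (a := 2) (b := 2 * Cd) (by norm_num) hz
    have h8 : (1 : ℝ) ≤ exp (2 * Cd * z) := Real.one_le_exp (by positivity)
    have h9 : exp ((2 + 2 * Cd) * z) ≤ exp ((2 + 2 * Cd + A₀) * z) :=
      Real.exp_le_exp.mpr (by nlinarith)
    linarith
  · intro ω hω _
    refine (V.nB ω hω n₀).trans (Real.exp_le_exp.mpr ?_)
    have h8 : (0 : ℝ) ≤ z + X := by positivity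
    have h9 : 0 ≤ (2 + 2 * Cd) * ((z : ℝ) + X) := mul_nonneg (by positivity) h8
    linarith

end

end Pool.P4N
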